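import Mathlib

/-!
# Riemannian metrics on the torus `T^d = ℝ^d / ℤ^d` and their systolic ratio

A smooth Riemannian metric on `T^d` is the same thing as a smooth `ℤ^d`-periodic field of
positive definite symmetric matrices on `ℝ^d`.  Closed curves of `T^d` are (projections of)
curves in `ℝ^d` whose end points differ by a vector `n ∈ ℤ^d`, and such a closed curve is
null-homotopic if and only if `n = 0`.
-/

open Matrix MeasureTheory

open scoped ContDiff

namespace Pool.Agent.SystolicTorus

/-- A smooth Riemannian metric on the torus `T^d = ℝ^d / ℤ^d`, given by the matrix of its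
coefficients in the standard coordinates: a smooth, `ℤ^d`-periodic field of positive definite
symmetric matrices on `ℝ^d`. -/
structure TorusMetric (d : ℕ) where
  /-- the matrix of coefficients `(g_{ij}(x))` -/
  coeff : (Fin d → ℝ) → Matrix (Fin d) (Fin d) ℝ
  /-- the coefficients are smooth functions -/
  smooth : ∀ i j, ContDiff ℝ ∞ fun x => coeff x i j
  /-- the coefficients are `ℤ^d`-periodic -/
  periodic : ∀ (x : Fin d → ℝ) (n : Fin d → ℤ), coeff (fun i => x i + n i) = coeff x
  /-- the matrix is symmetric and positive definite at every point -/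
  posDef : ∀ x, (coeff x).PosDef

namespace TorusMetric

variable {d : ℕ} (g : TorusMetric d)

/-- The length `√(vᵀ g(x) v)` of the tangent vector `v` at the point `x`. -/
noncomputable def tnorm (x v : Fin d → ℝ) : ℝ := Real.sqrt (v ⬝ᵥ g.coeff x *ᵥ v)

/-- The Riemannian volume of the torus: `∫ √(det g(x)) dx` over the unit cube. -/
noncomputable def vol : ℝ := ∫ x in Set.Icc (0 : Fin d → ℝ) 1, Real.sqrt (g.coeff x).det

/-- The length of the curve `γ` restricted to the parameter interval `[0, 1]`. -/
noncomputable def length (γ : ℝ → Fin d → ℝ) : ℝ := ∫ t in (0 : ℝ)..1, g.tnorm (γ t) (deriv γ t)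

end TorusMetric

/-- `γ` (restricted to `[0, 1]`) is a `C¹` curve in `ℝ^d` which projects to a closed curve of
`T^d = ℝ^d / ℤ^d` that is not null-homotopic: its end points differ by a non-zero vector
of `ℤ^d`. -/
def IsEssentialLoop {d : ℕ} (γ : ℝ → Fin d → ℝ) : Prop :=
  ContDiff ℝ 1 γ ∧ ∃ n : Fin d → ℤ, n ≠ 0 ∧ ∀ i, γ 1 i = γ 0 i + n i

namespace TorusMetric

variable {d : ℕ} (g : TorusMetric d)

/-- The homotopic `1`-systole: the infimum of the lengths of the closed curves which are not
null-homotopic. -/
noncomputable def systole : ℝ := sInf (g.length '' {γ | IsEssentialLoop γ})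

/-- The systolic ratio `Vol / Sys^d`. -/
noncomputable def systolicRatio : ℝ := g.vol / g.systole ^ d

/-- The flat metric on `T^d` with constant matrix of coefficients `A`.  If `A = Bᵀ B` this is
the metric of the flat torus `ℝ^d / B ℤ^d`; every flat torus is of this form up to isometry. -/
def flat (A : Matrix (Fin d) (Fin d) ℝ) (hA : A.PosDef) : TorusMetric d where
  coeff _ := A
  smooth _ _ := contDiff_const
  periodic _ _ := rfl
  posDef _ := hA

end TorusMetric

end Pool.Agent.SystolicTorus
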