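import Mathlib

/-!
# Gauss' theorem on the minimum of positive definite ternary forms

For every real positive definite symmetric `3 × 3` matrix `A` there is a non-zero integer vector
`n` with `(nᵀ A n)^3 ≤ 2 det A`.  Equivalently every lattice in `ℝ³` has
`λ₁³ ≤ √2 · covolume`, i.e. the Hermite constant `γ₃` is at most `2^(1/3)`.
-/

namespace Pool.Agent.SystolicTorus


lemma pos_case (a b c x y z : ℝ) (ha : 0 < a) (hab : a ≤ b) (hbc : b ≤ c) (hx : 0 ≤ x) (hy : 0 ≤ y)
    (hz : 0 ≤ z) (hxb : 2 * x ≤ b) (hya : 2 * y ≤ a) (hza : 2 * z ≤ a) :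
    0 ≤ a * b * c + 4 * (x * y * z) - 2 * a * x ^ 2 - 2 * b * y ^ 2 - 2 * c * z ^ 2 := by
  have hb : 0 < b := by linarith
  have hc : 0 < c := by linarith
  have h1 : 0 ≤ a * x * (b - 2 * x) := by apply mul_nonneg; positivity; linarith
  have h2 : 0 ≤ b * y * (a - 2 * y) := by apply mul_nonneg; positivity; linarith
  have h3 : 0 ≤ c * z * (a - 2 * z) := by apply mul_nonneg; positivity; linarith
  have hg : 0 ≤ a * b * c + 4 * (x * y * z) - a * b * x - a * b * y - a * c * z := by
    have h : 0 ≤ (b * a * a) * (a * b * c + 4 * (x * y * z) - a * b * x - a * b * y - a * c * z) := by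
      have hu : 0 ≤ b - 2 * x := by linarith
      have hv : 0 ≤ a - 2 * y := by linarith
      have hw : 0 ≤ a - 2 * z := by linarith
      have h2x : 0 ≤ 2 * x := by linarith
      have h2y : 0 ≤ 2 * y := by linarith
      have h2z : 0 ≤ 2 * z := by linarith
      have e : (b * a * a) * (a * b * c + 4 * (x * y * z) - a * b * x - a * b * y - a * c * z) =
        (a * b * c) * ((b - 2 * x) * (a - 2 * y) * (a - 2 * z))
        + (a * b * c - a * b * b / 2) * ((2 * x) * (a - 2 * y) * (a - 2 * z))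
        + (a * b * c - a * b * a / 2) * ((b - 2 * x) * (2 * y) * (a - 2 * z))
        + (a * b * c - a * c * a / 2) * ((b - 2 * x) * (a - 2 * y) * (2 * z))
        + (a * b * c - a * b * b / 2 - a * b * a / 2) * ((2 * x) * (2 * y) * (a - 2 * z))
        + (a * b * c - a * b * b / 2 - a * c * a / 2) * ((2 * x) * (a - 2 * y) * (2 * z))
        + (a * b * c - a * b * a / 2 - a * c * a / 2) * ((b - 2 * x) * (2 * y) * (2 * z))
        + (a * b * c + b * a * a / 2 - a * b * b / 2 - a * b * a / 2 - a * c * a / 2) * ((2 * x) * (2 * y) * (2 * z)) := by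
        ring
      rw [e]
      have k1 : 0 ≤ c - b := by linarith
      have k2 : 0 ≤ b - a := by linarith
      have k3 : 0 ≤ c - a := by linarith
      have q1 : 0 ≤ a * b * c := by positivity
      have q2 : 0 ≤ a * b * c - a * b * b / 2 := by
        have : a * b * c - a * b * b / 2 = a * b * (c - b) + a * b * b / 2 := by ring
        rw [this]; positivity
      have q3 : 0 ≤ a * b * c - a * b * a / 2 := by
        have : a * b * c - a * b * a / 2 = a * b * (c - a) + a * b * a / 2 := by ring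
        rw [this]; positivity
      have q4 : 0 ≤ a * b * c - a * c * a / 2 := by
        have : a * b * c - a * c * a / 2 = a * c * (b - a) + a * c * a / 2 := by ring
        rw [this]; positivity
      have q5 : 0 ≤ a * b * c - a * b * b / 2 - a * b * a / 2 := by
        have : a * b * c - a * b * b / 2 - a * b * a / 2 = a * b / 2 * ((c - b) + (c - a)) := by ring
        rw [this]; positivity
      have q6 : 0 ≤ a * b * c - a * b * b / 2 - a * c * a / 2 := by
        have : a * b * c - a * b * b / 2 - a * c * a / 2 = a / 2 * (b * (c - b) + c * (b - a)) := by ring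
        rw [this]; positivity
      have q7 : 0 ≤ a * b * c - a * b * a / 2 - a * c * a / 2 := by
        have : a * b * c - a * b * a / 2 - a * c * a / 2 = a / 2 * (b * (c - a) + c * (b - a)) := by ring
        rw [this]; positivity
      have q8 : 0 ≤ a * b * c + b * a * a / 2 - a * b * b / 2 - a * b * a / 2 - a * c * a / 2 := by
        have : a * b * c + b * a * a / 2 - a * b * b / 2 - a * b * a / 2 - a * c * a / 2 =
          a / 2 * (b * (c - b) + c * (b - a)) := by ring
        rw [this]; positivity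
      have r0 := mul_nonneg q1 (mul_nonneg (mul_nonneg hu hv) hw)
      have r1 := mul_nonneg q2 (mul_nonneg (mul_nonneg h2x hv) hw)
      have r2 := mul_nonneg q3 (mul_nonneg (mul_nonneg hu h2y) hw)
      have r3 := mul_nonneg q4 (mul_nonneg (mul_nonneg hu hv) h2z)
      have r4 := mul_nonneg q5 (mul_nonneg (mul_nonneg h2x h2y) hw)
      have r5 := mul_nonneg q6 (mul_nonneg (mul_nonneg h2x hv) h2z)
      have r6 := mul_nonneg q7 (mul_nonneg (mul_nonneg hu h2y) h2z)
      have r7 := mul_nonneg q8 (mul_nonneg (mul_nonneg h2x h2y) h2z)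
      exact add_nonneg (add_nonneg (add_nonneg (add_nonneg (add_nonneg (add_nonneg (add_nonneg r0 r1) r2) r3) r4) r5) r6) r7
    have hpos : 0 < b * a * a := by positivity
    exact nonneg_of_mul_nonneg_right h hpos
  have e : a * b * c + 4 * (x * y * z) - 2 * a * x ^ 2 - 2 * b * y ^ 2 - 2 * c * z ^ 2 =
    (a * b * c + 4 * (x * y * z) - a * b * x - a * b * y - a * c * z) + a * x * (b - 2 * x)
      + b * y * (a - 2 * y) + c * z * (a - 2 * z) := by ring
  rw [e]
  exact add_nonneg (add_nonneg (add_nonneg hg h1) h2) h3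

lemma neg_case (a b c x y z : ℝ) (ha : 0 < a) (hab : a ≤ b) (hbc : b ≤ c) (hx : 0 ≤ x) (hy : 0 ≤ y)
    (hz : 0 ≤ z) (hxb : 2 * x ≤ b) (hya : 2 * y ≤ a) (hza : 2 * z ≤ a) (hs : 2 * (x + y + z) ≤ a + b) :
    0 ≤ a * b * c - 4 * (x * y * z) - 2 * a * x ^ 2 - 2 * b * y ^ 2 - 2 * c * z ^ 2 := by
  have hb : 0 < b := by linarith
  have hc : 0 < c := by linarith
  have hu : 0 ≤ b - 2 * x := by linarith
  have hv : 0 ≤ a - 2 * y := by linarith
  have hw : 0 ≤ a - 2 * z := by linarith
  have hs' : 0 ≤ a + b - 2 * x - 2 * y - 2 * z := by linarith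
  have hba : 0 ≤ b - a := by linarith
  have hcb : 0 ≤ c - b := by linarith
  have hc2 : 0 ≤ (c - b) * (a * b - 2 * z ^ 2) := by
    apply mul_nonneg hcb
    nlinarith
  have key : 0 ≤ a * b * b - 4 * (x * y * z) - 2 * a * x ^ 2 - 2 * b * y ^ 2 - 2 * b * z ^ 2 := by
    nlinarith [mul_nonneg (mul_nonneg hx hu) hs', mul_nonneg (mul_nonneg hy hv) hs', mul_nonneg (mul_nonneg hz hw) hs',
      mul_nonneg (mul_nonneg hx hv) hs', mul_nonneg (mul_nonneg hx hw) hs', mul_nonneg (mul_nonneg hu hv) hw,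
      mul_nonneg (mul_nonneg hx hv) hw, mul_nonneg (mul_nonneg hu hy) hw, mul_nonneg (mul_nonneg hu hv) hz,
      mul_nonneg (mul_nonneg hx hy) hw, mul_nonneg (mul_nonneg hx hz) hv, mul_nonneg (mul_nonneg hy hz) hu,
      mul_nonneg (mul_nonneg hx hu) hba, mul_nonneg (mul_nonneg hy hv) hba, mul_nonneg (mul_nonneg hz hw) hba,
      mul_nonneg (mul_nonneg ha.le hba) hs', mul_nonneg (mul_nonneg ha.le hba) hu, mul_nonneg (mul_nonneg ha.le hba) hx,
      mul_nonneg (mul_nonneg ha.le hba) hb.le]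
  nlinarith

/-- The inequality `abc ≤ 2 det` for reduced ternary forms. -/
lemma reduced_ineq (a b c r s t : ℝ) (ha : 0 < a) (hab : a ≤ b) (hbc : b ≤ c)
    (hr : 2 * |r| ≤ b) (hs : 2 * |s| ≤ a) (ht : 2 * |t| ≤ a)
    (h1 : 0 ≤ a + b + 2 * s + 2 * r + 2 * t) (h2 : 0 ≤ a + b + 2 * s - 2 * r - 2 * t)
    (h3 : 0 ≤ a + b - 2 * s + 2 * r - 2 * t) (h4 : 0 ≤ a + b - 2 * s - 2 * r + 2 * t) :
    a * b * c ≤ 2 * (a * b * c + 2 * r * s * t - a * r ^ 2 - b * s ^ 2 - c * t ^ 2) := by
  have er : |r| ^ 2 = r ^ 2 := sq_abs r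
  have es : |s| ^ 2 = s ^ 2 := sq_abs s
  have et : |t| ^ 2 = t ^ 2 := sq_abs t
  by_cases hpos : 0 ≤ r * s * t
  · have h := pos_case a b c |r| |s| |t| ha hab hbc (abs_nonneg _) (abs_nonneg _) (abs_nonneg _)
      hr hs ht
    have e : |r| * |s| * |t| = r * s * t := by
      rw [← abs_mul, ← abs_mul, abs_of_nonneg hpos]
    rw [er, es, et, e] at h
    linarith
  · push Not at hpos
    have e : |r| * |s| * |t| = -(r * s * t) := by
      rw [← abs_mul, ← abs_mul, abs_of_neg hpos]
    have hsum : 2 * (|r| + |s| + |t|) ≤ a + b := by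
      rcases le_or_gt 0 r with hr0 | hr0 <;> rcases le_or_gt 0 s with hs0 | hs0 <;>
        rcases le_or_gt 0 t with ht0 | ht0
      · exfalso
        have : 0 ≤ r * s * t := mul_nonneg (mul_nonneg hr0 hs0) ht0
        linarith
      · rw [abs_of_nonneg hr0, abs_of_nonneg hs0, abs_of_neg ht0]; linarith
      · rw [abs_of_nonneg hr0, abs_of_neg hs0, abs_of_nonneg ht0]; linarith
      · exfalso
        have : 0 ≤ r * s * t := by
          have : 0 ≤ r * (s * t) := mul_nonneg hr0 (mul_nonneg_of_nonpos_of_nonpos hs0.le ht0.le)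
          linarith [mul_assoc r s t]
        linarith
      · rw [abs_of_neg hr0, abs_of_nonneg hs0, abs_of_nonneg ht0]; linarith
      · exfalso
        have : 0 ≤ r * s * t := by
          have : 0 ≤ s * (r * t) := mul_nonneg hs0 (mul_nonneg_of_nonpos_of_nonpos hr0.le ht0.le)
          nlinarith
        linarith
      · exfalso
        have : 0 ≤ r * s * t := mul_nonneg (mul_nonneg_of_nonpos_of_nonpos hr0.le hs0.le) ht0
        linarith
      · rw [abs_of_neg hr0, abs_of_neg hs0, abs_of_neg ht0]; linarith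
    have h := neg_case a b c |r| |s| |t| ha hab hbc (abs_nonneg _) (abs_nonneg _) (abs_nonneg _)
      hr hs ht hsum
    rw [er, es, et, e] at h
    linarith

open Matrix

variable (A : Matrix (Fin 3) (Fin 3) ℝ)

/-- The bilinear form of `A` on integer vectors. -/
def bil (u v : Fin 3 → ℤ) : ℝ := (fun i => (u i : ℝ)) ⬝ᵥ A *ᵥ (fun i => (v i : ℝ))

lemma bil_eq (u v : Fin 3 → ℤ) : bil A u v = ∑ i, ∑ j, (u i : ℝ) * A i j * (v j : ℝ) := by
  unfold bil
  simp only [dotProduct, mulVec, Finset.mul_sum]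
  refine Finset.sum_congr rfl fun i _ => Finset.sum_congr rfl fun j _ => by ring

lemma bil_symm (hA : A.IsHermitian) (u v : Fin 3 → ℤ) : bil A u v = bil A v u := by
  rw [bil_eq, bil_eq, Finset.sum_comm]
  refine Finset.sum_congr rfl fun i _ => Finset.sum_congr rfl fun j _ => ?_
  have : A j i = A i j := by
    have := hA.apply i j
    simpa using this
  rw [this]; ring

lemma bil_add_left (u v w : Fin 3 → ℤ) : bil A (u + v) w = bil A u w + bil A v w := by
  simp only [bil_eq, Pi.add_apply, Int.cast_add, ← Finset.sum_add_distrib]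
  refine Finset.sum_congr rfl fun i _ => Finset.sum_congr rfl fun j _ => by ring

lemma bil_add_right (u v w : Fin 3 → ℤ) : bil A u (v + w) = bil A u v + bil A u w := by
  simp only [bil_eq, Pi.add_apply, Int.cast_add, ← Finset.sum_add_distrib]
  refine Finset.sum_congr rfl fun i _ => Finset.sum_congr rfl fun j _ => by ring

lemma bil_smul_left (c : ℤ) (u v : Fin 3 → ℤ) : bil A (c • u) v = c * bil A u v := by
  simp only [bil_eq, Pi.smul_apply, smul_eq_mul, Int.cast_mul, Finset.mul_sum]
  refine Finset.sum_congr rfl fun i _ => Finset.sum_congr rfl fun j _ => by ring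

lemma bil_smul_right (c : ℤ) (u v : Fin 3 → ℤ) : bil A u (c • v) = c * bil A u v := by
  simp only [bil_eq, Pi.smul_apply, smul_eq_mul, Int.cast_mul, Finset.mul_sum]
  refine Finset.sum_congr rfl fun i _ => Finset.sum_congr rfl fun j _ => by ring

/-- A positive definite form is bounded below by a multiple of the sup norm squared. -/
lemma exists_lower (d : ℕ) (A : Matrix (Fin d) (Fin d) ℝ) (hA : A.PosDef) :
    ∃ m : ℝ, 0 < m ∧ ∀ x : Fin d → ℝ, m * ‖x‖ ^ 2 ≤ x ⬝ᵥ A *ᵥ x := by
  have hpos : ∀ x : Fin d → ℝ, x ≠ 0 → 0 < x ⬝ᵥ A *ᵥ x := fun x hx => by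
    have := hA.dotProduct_mulVec_pos hx
    simpa using this
  have hcont : Continuous fun x : Fin d → ℝ => x ⬝ᵥ A *ᵥ x := by
    simp only [dotProduct, mulVec]
    fun_prop
  rcases isEmpty_or_nonempty (Fin d) with hd | hd
  · refine ⟨1, one_pos, fun x => ?_⟩
    have : x = 0 := Subsingleton.elim _ _
    simp [this]
  · have hne : (Metric.sphere (0 : Fin d → ℝ) 1).Nonempty := by
      refine ⟨fun _ => 1, ?_⟩
      simp [pi_norm_const]
    obtain ⟨x0, hx0, hmin⟩ := (isCompact_sphere (0 : Fin d → ℝ) 1).exists_isMinOn hne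
      hcont.continuousOn
    have hx0' : x0 ≠ 0 := by
      rintro rfl
      simp at hx0
    refine ⟨x0 ⬝ᵥ A *ᵥ x0, hpos x0 hx0', fun x => ?_⟩
    rcases eq_or_ne x 0 with rfl | hx
    · simp
    · have hnx : 0 < ‖x‖ := norm_pos_iff.2 hx
      have hs : (‖x‖⁻¹ • x) ∈ Metric.sphere (0 : Fin d → ℝ) 1 := by
        simp [norm_smul, hnx.ne']
      have h := hmin hs
      simp only [Set.mem_ofPred_eq] at h
      have e : (‖x‖⁻¹ • x) ⬝ᵥ A *ᵥ (‖x‖⁻¹ • x) = (‖x‖ ^ 2)⁻¹ * (x ⬝ᵥ A *ᵥ x) := by
        rw [mulVec_smul, smul_dotProduct, dotProduct_smul, smul_eq_mul, smul_eq_mul]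
        rw [← mul_assoc, ← mul_inv, ← pow_two]
      rw [e] at h
      have h2 : 0 < ‖x‖ ^ 2 := by positivity
      calc (x0 ⬝ᵥ A *ᵥ x0) * ‖x‖ ^ 2 ≤ ((‖x‖ ^ 2)⁻¹ * (x ⬝ᵥ A *ᵥ x)) * ‖x‖ ^ 2 := by
            exact mul_le_mul_of_nonneg_right h h2.le
        _ = x ⬝ᵥ A *ᵥ x := by field_simp

lemma bil_lower (hA : A.PosDef) : ∃ m : ℝ, 0 < m ∧ ∀ (u : Fin 3 → ℤ) (i : Fin 3),
    m * (u i : ℝ) ^ 2 ≤ bil A u u := by
  obtain ⟨m, hm, h⟩ := exists_lower 3 A hA
  refine ⟨m, hm, fun u i => ?_⟩
  refine le_trans ?_ (h (fun i => (u i : ℝ)))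
  have h1 : |(u i : ℝ)| ≤ ‖fun i => (u i : ℝ)‖ := norm_le_pi_norm (fun i => (u i : ℝ)) i
  have h2 : (u i : ℝ) ^ 2 ≤ ‖fun i => (u i : ℝ)‖ ^ 2 := by
    rw [← sq_abs]
    exact pow_le_pow_left₀ (abs_nonneg _) h1 2
  exact mul_le_mul_of_nonneg_left h2 hm.le

/-- The total energy of a triple of integer vectors. -/
def energy (u : Fin 3 → Fin 3 → ℤ) : ℝ := ∑ i, bil A (u i) (u i)

/-- `u` is a basis of `ℤ³`. -/
def IsUni (u : Fin 3 → Fin 3 → ℤ) : Prop := (Matrix.of u).det = 1 ∨ (Matrix.of u).det = -1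

lemma exists_min (hA : A.PosDef) :
    ∃ u : Fin 3 → Fin 3 → ℤ, IsUni u ∧ ∀ v : Fin 3 → Fin 3 → ℤ, IsUni v → energy A u ≤ energy A v := by
  obtain ⟨m, hm, hlow⟩ := bil_lower A hA
  let u0 : Fin 3 → Fin 3 → ℤ := fun i j => (1 : Matrix (Fin 3) (Fin 3) ℤ) i j
  have hu0 : IsUni u0 := by
    left
    have : Matrix.of u0 = 1 := rfl
    rw [this, det_one]
  let T : Set (Fin 3 → Fin 3 → ℤ) := {u | IsUni u ∧ energy A u ≤ energy A u0}
  obtain ⟨N, hN⟩ := exists_nat_gt (energy A u0 / m)
  have hbnn : ∀ u : Fin 3 → ℤ, 0 ≤ bil A u u := fun u =>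
    le_trans (by positivity) (hlow u 0)
  have hfin : T.Finite := by
    apply (Set.finite_Icc (fun (_ _ : Fin 3) => -(N : ℤ)) (fun (_ _ : Fin 3) => (N : ℤ))).subset
    rintro u ⟨_, hu⟩
    have key : ∀ i j, |u i j| ≤ (N : ℤ) := by
      intro i j
      have h1 : m * (u i j : ℝ) ^ 2 ≤ energy A u0 := by
        refine (hlow (u i) j).trans (le_trans ?_ hu)
        unfold energy
        exact Finset.single_le_sum (f := fun i => bil A (u i) (u i)) (fun k _ => hbnn (u k))
          (Finset.mem_univ i)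
      have h2 : (u i j : ℝ) ^ 2 < N := by
        refine lt_of_le_of_lt ?_ hN
        rw [le_div_iff₀ hm]; linarith
      have h3 : (u i j) ^ 2 < (N : ℤ) := by exact_mod_cast h2
      by_contra hcon
      push Not at hcon
      have h4 : (N : ℤ) * 1 ≤ |u i j| * |u i j| := by
        apply mul_le_mul hcon.le _ zero_le_one (abs_nonneg _)
        have : 0 < |u i j| := lt_of_le_of_lt (by positivity) hcon
        omega
      have h5 : |u i j| * |u i j| = (u i j) ^ 2 := by rw [← pow_two, sq_abs]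
      omega
    constructor
    · intro i j; exact (abs_le.1 (key i j)).1
    · intro i j; exact (abs_le.1 (key i j)).2
  obtain ⟨u, huT, hmin⟩ := Set.exists_min_image T (energy A) hfin ⟨u0, hu0, le_refl _⟩
  refine ⟨u, huT.1, fun v hv => ?_⟩
  by_cases h : energy A v ≤ energy A u0
  · exact hmin v ⟨hv, h⟩
  · push Not at h
    exact huT.2.trans h.le

lemma exists_sorted_min (hA : A.PosDef) :
    ∃ u : Fin 3 → Fin 3 → ℤ, IsUni u ∧
      (∀ v : Fin 3 → Fin 3 → ℤ, IsUni v → energy A u ≤ energy A v) ∧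
      bil A (u 0) (u 0) ≤ bil A (u 1) (u 1) ∧ bil A (u 1) (u 1) ≤ bil A (u 2) (u 2) := by
  obtain ⟨u, hu, hmin⟩ := exists_min A hA
  let f : Fin 3 → ℝ := fun i => bil A (u i) (u i)
  let σ := Tuple.sort f
  have hmono : Monotone (f ∘ σ) := Tuple.monotone_sort f
  refine ⟨fun i => u (σ i), ?_, ?_, ?_, ?_⟩
  · have h1 : (Matrix.of fun i => u (σ i)).det = (Equiv.Perm.sign σ : ℤ) * (Matrix.of u).det := by
      have := Matrix.det_permute σ (Matrix.of u)
      simpa [Matrix.submatrix] using this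
    have hs : ((Equiv.Perm.sign σ : ℤˣ) : ℤ) = 1 ∨ ((Equiv.Perm.sign σ : ℤˣ) : ℤ) = -1 := by
      rcases Int.units_eq_one_or (Equiv.Perm.sign σ) with h | h <;> simp [h]
    unfold IsUni at hu ⊢
    rw [h1]
    rcases hs with hs | hs <;> rcases hu with hu | hu <;> rw [hs, hu] <;> simp
  · intro v hv
    have : energy A (fun i => u (σ i)) = energy A u := by
      unfold energy
      exact Equiv.sum_comp σ (fun i => bil A (u i) (u i))
    rw [this]
    exact hmin v hv
  · exact hmono (by decide : (0 : Fin 3) ≤ 1)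
  · exact hmono (by decide : (1 : Fin 3) ≤ 2)

lemma energy_update (u : Fin 3 → Fin 3 → ℤ) (i : Fin 3) (w : Fin 3 → ℤ) :
    energy A (Function.update u i w) = energy A u - bil A (u i) (u i) + bil A w w := by
  unfold energy
  rw [← Finset.add_sum_erase _ _ (Finset.mem_univ i),
    ← Finset.add_sum_erase (f := fun i => bil A (u i) (u i)) _ (Finset.mem_univ i)]
  rw [Function.update_self]
  have : ∑ x ∈ Finset.univ.erase i, bil A (Function.update u i w x) (Function.update u i w x) =
      ∑ x ∈ Finset.univ.erase i, bil A (u x) (u x) := by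
    apply Finset.sum_congr rfl
    intro x hx
    rw [Function.update_of_ne (Finset.ne_of_mem_erase hx)]
  rw [this]; ring

lemma isUni_update (u : Fin 3 → Fin 3 → ℤ) (hu : IsUni u) (i j : Fin 3) (hij : i ≠ j) (c : ℤ) :
    IsUni (Function.update u i (u i + c • u j)) := by
  unfold IsUni at hu ⊢
  have h : (Matrix.of (Function.update u i (u i + c • u j))).det = (Matrix.of u).det := by
    exact Matrix.det_updateRow_add_smul_self (Matrix.of u) hij c
  rw [h]; exact hu

lemma min_one {u : Fin 3 → Fin 3 → ℤ} (hu : IsUni u)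
    (hmin : ∀ v : Fin 3 → Fin 3 → ℤ, IsUni v → energy A u ≤ energy A v) (i j : Fin 3)
    (hij : i ≠ j) (c : ℤ) : bil A (u i) (u i) ≤ bil A (u i + c • u j) (u i + c • u j) := by
  have h := hmin _ (isUni_update u hu i j hij c)
  rw [energy_update] at h
  linarith

lemma min_two {u : Fin 3 → Fin 3 → ℤ} (hu : IsUni u)
    (hmin : ∀ v : Fin 3 → Fin 3 → ℤ, IsUni v → energy A u ≤ energy A v) (i j k : Fin 3)
    (hij : i ≠ j) (hik : i ≠ k) (c d : ℤ) :
    bil A (u i) (u i) ≤ bil A (u i + c • u j + d • u k) (u i + c • u j + d • u k) := by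
  have h0 := isUni_update u hu i j hij c
  have h1 := isUni_update _ h0 i k hik d
  have h := hmin _ h1
  rw [energy_update, energy_update] at h
  simp only [Function.update_self, Function.update_of_ne hik.symm] at h
  linarith

/-- **Gauss.** A positive definite ternary form takes at some non-zero integer vector a value
`μ` with `μ³ ≤ 2 det`. -/
theorem gauss_ternary (hA : A.PosDef) :
    ∃ n : Fin 3 → ℤ, n ≠ 0 ∧
      ((fun i => (n i : ℝ)) ⬝ᵥ A *ᵥ (fun i => (n i : ℝ))) ^ 3 ≤ 2 * A.det := by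
  obtain ⟨u, hu, hmin, h01, h12⟩ := exists_sorted_min A hA
  have hsym : ∀ v w, bil A v w = bil A w v := bil_symm A hA.isHermitian
  have hne : ∀ i, u i ≠ 0 := by
    intro i hi
    have : (Matrix.of u).det = 0 := Matrix.det_eq_zero_of_row_eq_zero i (fun j => by
      simp [hi])
    rcases hu with h | h <;> rw [this] at h <;> omega
  have hposu : ∀ i, 0 < bil A (u i) (u i) := by
    intro i
    have h0 : (fun k => (u i k : ℝ)) ≠ 0 := by
      intro h
      apply hne i
      funext k
      have := congrFun h k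
      simpa using this
    have := hA.dotProduct_mulVec_pos h0
    simpa [bil] using this
  set a := bil A (u 0) (u 0) with ha
  set b := bil A (u 1) (u 1) with hb
  set c := bil A (u 2) (u 2) with hc
  set r := bil A (u 1) (u 2) with hr
  set s := bil A (u 0) (u 2) with hs
  set t := bil A (u 0) (u 1) with ht
  have one : ∀ (i j : Fin 3) (hij : i ≠ j) (e : ℤ), 0 ≤ 2 * (e : ℝ) * bil A (u i) (u j) +
      (e : ℝ) ^ 2 * bil A (u j) (u j) := by
    intro i j hij e
    have h := min_one A hu hmin i j hij e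
    simp only [bil_add_left, bil_add_right, bil_smul_left, bil_smul_right] at h
    rw [hsym (u j) (u i)] at h
    nlinarith
  have two : ∀ (e f : ℤ), 0 ≤ 2 * (e : ℝ) * s + 2 * f * r + 2 * e * f * t + (e : ℝ) ^ 2 * a +
      (f : ℝ) ^ 2 * b := by
    intro e f
    have h := min_two A hu hmin 2 0 1 (by decide) (by decide) e f
    simp only [bil_add_left, bil_add_right, bil_smul_left, bil_smul_right] at h
    rw [hsym (u 2) (u 0), hsym (u 2) (u 1), hsym (u 1) (u 0)] at h
    nlinarith
  -- the determinant of the Gram matrix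
  have hdet : a * b * c + 2 * r * s * t - a * r ^ 2 - b * s ^ 2 - c * t ^ 2 = A.det := by
    let U : Matrix (Fin 3) (Fin 3) ℝ := (Matrix.of u).map (Int.cast : ℤ → ℝ)
    have hUdet : U.det = ((Matrix.of u).det : ℝ) := by
      have := (Int.castRingHom ℝ).map_det (Matrix.of u)
      simpa [U, RingHom.mapMatrix_apply] using this.symm
    have hUsq : U.det * U.det = 1 := by
      rw [hUdet]
      rcases hu with h | h <;> rw [h] <;> norm_num
    have hG : (U * A * Uᵀ).det = A.det := by
      rw [det_mul, det_mul, det_transpose]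
      calc U.det * A.det * U.det = (U.det * U.det) * A.det := by ring
        _ = A.det := by rw [hUsq, one_mul]
    have hentry : ∀ i j, (U * A * Uᵀ) i j = bil A (u i) (u j) := by
      intro i j
      rw [bil_eq]
      simp only [Matrix.mul_apply, Matrix.transpose_apply, Finset.sum_mul]
      rw [Finset.sum_comm]
      rfl
    rw [← hG, Matrix.det_fin_three]
    simp only [hentry]
    rw [hsym (u 1) (u 0), hsym (u 2) (u 0), hsym (u 2) (u 1)]
    ring
  have hred : a * b * c ≤ 2 * (a * b * c + 2 * r * s * t - a * r ^ 2 - b * s ^ 2 - c * t ^ 2) := by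
    apply reduced_ineq a b c r s t (hposu 0) h01 h12
    · have e1 := one 2 1 (by decide) 1
      have e2 := one 2 1 (by decide) (-1)
      rw [hsym (u 2) (u 1)] at e1 e2
      push_cast at e1 e2
      have : |r| ≤ b / 2 := abs_le.2 ⟨by linarith, by linarith⟩
      linarith
    · have e1 := one 2 0 (by decide) 1
      have e2 := one 2 0 (by decide) (-1)
      rw [hsym (u 2) (u 0)] at e1 e2
      push_cast at e1 e2
      have : |s| ≤ a / 2 := abs_le.2 ⟨by linarith, by linarith⟩
      linarith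
    · have e1 := one 1 0 (by decide) 1
      have e2 := one 1 0 (by decide) (-1)
      rw [hsym (u 1) (u 0)] at e1 e2
      push_cast at e1 e2
      have : |t| ≤ a / 2 := abs_le.2 ⟨by linarith, by linarith⟩
      linarith
    · have := two 1 1; push_cast at this; linarith
    · have := two 1 (-1); push_cast at this; linarith
    · have := two (-1) 1; push_cast at this; linarith
    · have := two (-1) (-1); push_cast at this; linarith
  refine ⟨u 0, hne 0, ?_⟩
  have h3 : a ^ 3 ≤ a * b * c := by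
    have hapos := hposu 0
    have : a * a ≤ b * c := mul_le_mul h01 (h01.trans h12) hapos.le (hapos.le.trans h01)
    nlinarith
  have : ((fun i => ((u 0) i : ℝ)) ⬝ᵥ A *ᵥ (fun i => ((u 0) i : ℝ))) = a := rfl
  rw [this]
  linarith

end Pool.Agent.SystolicTorus
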