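import Mathlib
import Pool.Agent.SystolicTorus.Defs
import Pool.Agent.SystolicTorus.Gauss

/-!
# Flat tori: the systolic ratio of a flat metric on `T³` is at least `1/√2`
-/

open Matrix MeasureTheory

namespace Pool.Agent.SystolicTorus

namespace TorusMetric

variable {d : ℕ} (g : TorusMetric d)

lemma tnorm_nonneg (x v : Fin d → ℝ) : 0 ≤ g.tnorm x v := Real.sqrt_nonneg _

lemma length_nonneg (γ : ℝ → Fin d → ℝ) : 0 ≤ g.length γ := by
  unfold length
  exact intervalIntegral.integral_nonneg zero_le_one fun t _ => g.tnorm_nonneg _ _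

lemma bddBelow_lengths : BddBelow (g.length '' {γ | IsEssentialLoop γ}) :=
  ⟨0, by rintro _ ⟨γ, _, rfl⟩; exact g.length_nonneg γ⟩

lemma systole_le {γ : ℝ → Fin d → ℝ} (hγ : IsEssentialLoop γ) : g.systole ≤ g.length γ :=
  csInf_le g.bddBelow_lengths ⟨γ, hγ, rfl⟩

/-- The straight segment from `0` to `n`. -/
noncomputable def segment (n : Fin d → ℤ) : ℝ → Fin d → ℝ := fun t i => t * (n i : ℝ)

lemma segment_essential (n : Fin d → ℤ) (hn : n ≠ 0) : IsEssentialLoop (segment n) := by
  refine ⟨?_, n, hn, fun i => by simp [segment]⟩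
  unfold segment
  rw [contDiff_pi]
  intro i
  fun_prop

lemma exists_essential (hd : 0 < d) : ∃ γ : ℝ → Fin d → ℝ, IsEssentialLoop γ := by
  refine ⟨segment (fun _ => 1), segment_essential _ ?_⟩
  intro h
  have := congrFun h ⟨0, hd⟩
  simp at this

lemma le_systole (hd : 0 < d) {c : ℝ} (h : ∀ γ, IsEssentialLoop γ → c ≤ g.length γ) :
    c ≤ g.systole := by
  apply le_csInf
  · obtain ⟨γ, hγ⟩ := exists_essential hd
    exact ⟨_, γ, hγ, rfl⟩
  · rintro _ ⟨γ, hγ, rfl⟩
    exact h γ hγ

lemma deriv_segment (n : Fin d → ℤ) (t : ℝ) : deriv (segment n) t = fun i => (n i : ℝ) := by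
  have h : HasDerivAt (segment n) (fun i => (n i : ℝ)) t := by
    rw [hasDerivAt_pi]
    intro i
    simpa [segment] using (hasDerivAt_id t).mul_const (n i : ℝ)
  exact h.deriv

lemma vol_flat (A : Matrix (Fin d) (Fin d) ℝ) (hA : A.PosDef) :
    (flat A hA).vol = Real.sqrt A.det := by
  unfold vol flat
  simp only [MeasureTheory.integral_const, smul_eq_mul]
  have : (volume.restrict (Set.Icc (0 : Fin d → ℝ) 1)).real Set.univ = 1 := by
    rw [Measure.real, Measure.restrict_apply_univ, Real.volume_Icc_pi]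
    simp
  rw [this, one_mul]

lemma length_segment_flat (A : Matrix (Fin d) (Fin d) ℝ) (hA : A.PosDef) (n : Fin d → ℤ) :
    (flat A hA).length (segment n) =
      Real.sqrt ((fun i => (n i : ℝ)) ⬝ᵥ A *ᵥ (fun i => (n i : ℝ))) := by
  unfold length
  simp [deriv_segment, tnorm, flat]

lemma systole_flat_pos (hd : 0 < d) (A : Matrix (Fin d) (Fin d) ℝ) (hA : A.PosDef) :
    0 < (flat A hA).systole := by
  obtain ⟨m, hm, hlow⟩ := exists_lower d A hA
  have h : Real.sqrt m ≤ (flat A hA).systole := by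
    apply le_systole _ hd
    rintro γ ⟨hγ, n, hn, hend⟩
    have hderiv : ∀ t, HasDerivAt γ (deriv γ t) t := fun t =>
      (hγ.differentiable (by norm_num) t).hasDerivAt
    have hcd : Continuous (deriv γ) := hγ.continuous_deriv (by norm_num)
    have h1 : ∫ t in (0 : ℝ)..1, deriv γ t = γ 1 - γ 0 :=
      intervalIntegral.integral_eq_sub_of_hasDerivAt (fun t _ => hderiv t)
        (hcd.intervalIntegrable _ _)
    have h2 : ‖γ 1 - γ 0‖ ≤ ∫ t in (0 : ℝ)..1, ‖deriv γ t‖ := by
      rw [← h1]
      exact intervalIntegral.norm_integral_le_integral_norm zero_le_one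
    have h3 : (1 : ℝ) ≤ ‖γ 1 - γ 0‖ := by
      obtain ⟨i, hi⟩ := Function.ne_iff.1 hn
      refine le_trans ?_ (norm_le_pi_norm (γ 1 - γ 0) i)
      rw [Pi.sub_apply, hend i, add_sub_cancel_left, Real.norm_eq_abs]
      have : (1 : ℤ) ≤ |n i| := Int.one_le_abs hi
      exact_mod_cast this
    have hcn : Continuous fun t => Real.sqrt m * ‖deriv γ t‖ := by fun_prop
    have hct : Continuous fun t => (flat A hA).tnorm (γ t) (deriv γ t) := by
      unfold tnorm flat
      simp only [dotProduct, mulVec]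
      fun_prop
    calc Real.sqrt m ≤ Real.sqrt m * ∫ t in (0 : ℝ)..1, ‖deriv γ t‖ := by
          have := h3.trans h2
          nlinarith [Real.sqrt_nonneg m]
      _ = ∫ t in (0 : ℝ)..1, Real.sqrt m * ‖deriv γ t‖ := by
          rw [intervalIntegral.integral_const_mul]
      _ ≤ (flat A hA).length γ := by
          unfold length
          apply intervalIntegral.integral_mono_on zero_le_one (hcn.intervalIntegrable _ _)
            (hct.intervalIntegrable _ _)
          intro t _
          unfold tnorm flat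
          rw [← Real.sqrt_sq (norm_nonneg (deriv γ t)), ← Real.sqrt_mul hm.le]
          exact Real.sqrt_le_sqrt (hlow _)
  exact lt_of_lt_of_le (Real.sqrt_pos.2 hm) h

/-- **Gauss.** Every flat metric on `T³` has systolic ratio at least `1/√2`. -/
theorem ratio_flat_ge (A : Matrix (Fin 3) (Fin 3) ℝ) (hA : A.PosDef) :
    1 / Real.sqrt 2 ≤ (flat A hA).systolicRatio := by
  obtain ⟨n, hn, hq⟩ := gauss_ternary A hA
  set q : ℝ := (fun i => (n i : ℝ)) ⬝ᵥ A *ᵥ (fun i => (n i : ℝ)) with hqdef
  have hs := systole_flat_pos (by norm_num) A hA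
  have hsq : (flat A hA).systole ≤ Real.sqrt q := by
    rw [hqdef, ← length_segment_flat A hA n]
    exact systole_le _ (segment_essential n hn)
  have hdet : 0 < A.det := hA.det_pos
  have hq0 : 0 ≤ q := by
    by_contra hneg
    push Not at hneg
    rw [Real.sqrt_eq_zero_of_nonpos hneg.le] at hsq
    linarith
  unfold systolicRatio
  rw [vol_flat, div_le_div_iff₀ (by positivity) (by positivity), one_mul]
  -- `s^3 ≤ √(det A) √2`
  have h6 : ((flat A hA).systole ^ 3) ^ 2 ≤ (Real.sqrt A.det * Real.sqrt 2) ^ 2 := by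
    have e1 : ((flat A hA).systole ^ 3) ^ 2 = ((flat A hA).systole ^ 2) ^ 3 := by ring
    have e2 : (Real.sqrt A.det * Real.sqrt 2) ^ 2 = 2 * A.det := by
      rw [mul_pow, Real.sq_sqrt hdet.le, Real.sq_sqrt (by norm_num)]; ring
    rw [e1, e2]
    refine le_trans ?_ hq
    have h1 : (flat A hA).systole ^ 2 ≤ q := by
      calc (flat A hA).systole ^ 2 ≤ (Real.sqrt q) ^ 2 := pow_le_pow_left₀ hs.le hsq 2
        _ = q := Real.sq_sqrt hq0
    exact pow_le_pow_left₀ (by positivity) h1 3
  exact (pow_le_pow_iff_left₀ (by positivity) (by positivity) (by norm_num)).1 h6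

end TorusMetric

end Pool.Agent.SystolicTorus
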