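import Mathlib
import Pool.Agent.SystolicTorus.Defs
import Pool.Agent.SystolicTorus.Flat

/-!
# A family of `T²`-invariant metrics on `T³`

For a smooth `1`-periodic function `Θ` and `W > 0` we consider the metric
`W² dx₀² + (1 + sin Θ(x₀))/2 · dX² + (1 - sin Θ(x₀))/2 · dY²`
with `X = x₀ + x₁ + x₂`, `Y = x₁ - x₂`.
-/

open Matrix MeasureTheory Real

open scoped ContDiff

namespace Pool.Agent.SystolicTorus

/-- The matrix of the quadratic form `W² v₀² + (1+b)/2 (v₀+v₁+v₂)² + (1-b)/2 (v₁-v₂)²`. -/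
noncomputable def profileMatrix (W b : ℝ) : Matrix (Fin 3) (Fin 3) ℝ :=
  !![W ^ 2 + (1 + b) / 2, (1 + b) / 2, (1 + b) / 2;
     (1 + b) / 2, 1, b;
     (1 + b) / 2, b, 1]

lemma profileMatrix_form (W b : ℝ) (v : Fin 3 → ℝ) :
    v ⬝ᵥ profileMatrix W b *ᵥ v =
      W ^ 2 * v 0 ^ 2 + (1 + b) / 2 * (v 0 + v 1 + v 2) ^ 2 + (1 - b) / 2 * (v 1 - v 2) ^ 2 := by
  simp [profileMatrix, dotProduct, mulVec, Fin.sum_univ_three]
  ring

lemma profileMatrix_det (W b : ℝ) : (profileMatrix W b).det = W ^ 2 * (1 - b ^ 2) := by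
  simp [profileMatrix, Matrix.det_fin_three]
  ring

lemma profileMatrix_posDef {W b : ℝ} (hW : 0 < W) (hb : |b| < 1) :
    (profileMatrix W b).PosDef := by
  apply Matrix.PosDef.of_dotProduct_mulVec_pos
  · ext i j
    fin_cases i <;> fin_cases j <;> simp [profileMatrix]
  · intro v hv
    have hform := profileMatrix_form W b v
    simp only [star_trivial]
    rw [hform]
    obtain ⟨h1, h2⟩ := abs_lt.1 hb
    have p1 : 0 < (1 + b) / 2 := by linarith
    have p2 : 0 < (1 - b) / 2 := by linarith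
    have p3 : 0 < W ^ 2 := by positivity
    by_contra hcon
    push Not at hcon
    have q1 : 0 ≤ W ^ 2 * v 0 ^ 2 := by positivity
    have q2 : 0 ≤ (1 + b) / 2 * (v 0 + v 1 + v 2) ^ 2 := by positivity
    have q3 : 0 ≤ (1 - b) / 2 * (v 1 - v 2) ^ 2 := by positivity
    have z1 : W ^ 2 * v 0 ^ 2 = 0 := by linarith
    have z2 : (1 + b) / 2 * (v 0 + v 1 + v 2) ^ 2 = 0 := by linarith
    have z3 : (1 - b) / 2 * (v 1 - v 2) ^ 2 = 0 := by linarith
    have y1 : v 0 = 0 := by
      rcases mul_eq_zero.1 z1 with h | h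
      · exact absurd h p3.ne'
      · exact pow_eq_zero_iff (two_ne_zero) |>.1 h
    have y2 : v 0 + v 1 + v 2 = 0 := by
      rcases mul_eq_zero.1 z2 with h | h
      · exact absurd h p1.ne'
      · exact pow_eq_zero_iff (two_ne_zero) |>.1 h
    have y3 : v 1 - v 2 = 0 := by
      rcases mul_eq_zero.1 z3 with h | h
      · exact absurd h p2.ne'
      · exact pow_eq_zero_iff (two_ne_zero) |>.1 h
    apply hv
    ext i
    fin_cases i
    · simpa using y1
    · simp; linarith
    · simp; linarith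

/-- Hypotheses on the profile `Θ` and the width `W`. -/
structure IsProfile (W : ℝ) (Θ : ℝ → ℝ) : Prop where
  smooth : ContDiff ℝ ∞ Θ
  periodic : ∀ s, Θ (s + 1) = Θ s
  bound : ∀ s, |Θ s| ≤ π / 6
  slope : ∀ s, |deriv Θ s| ≤ 2 * π * W
  width : 1 / 2 ≤ W

namespace IsProfile

variable {W : ℝ} {Θ : ℝ → ℝ} (h : IsProfile W Θ)

include h

lemma W_pos : 0 < W := lt_of_lt_of_le (by norm_num) h.width

lemma sin_le (s : ℝ) : |sin (Θ s)| ≤ 1 / 2 := by
  obtain ⟨h1, h2⟩ := abs_le.1 (h.bound s)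
  rw [abs_le]
  constructor
  · rw [← Real.sin_pi_div_six, ← Real.sin_neg]
    apply Real.sin_le_sin_of_le_of_le_pi_div_two <;> linarith [Real.pi_pos]
  · rw [← Real.sin_pi_div_six]
    apply Real.sin_le_sin_of_le_of_le_pi_div_two <;> linarith [Real.pi_pos]

lemma cos_pos (s : ℝ) : 0 < cos (Θ s) := by
  obtain ⟨h1, h2⟩ := abs_le.1 (h.bound s)
  apply Real.cos_pos_of_mem_Ioo
  constructor <;> linarith [Real.pi_pos]

lemma periodic_int (s : ℝ) (n : ℤ) : Θ (s + n) = Θ s := by
  have hp : Function.Periodic Θ 1 := h.periodic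
  simpa using hp.int_mul n s

/-- The metric attached to a profile. -/
noncomputable def metric : TorusMetric 3 where
  coeff x := profileMatrix W (sin (Θ (x 0)))
  smooth i j := by
    have h0 : ContDiff ℝ ∞ fun x : Fin 3 → ℝ => sin (Θ (x 0)) :=
      Real.contDiff_sin.comp (h.smooth.comp (contDiff_apply ℝ ℝ (0 : Fin 3)))
    fin_cases i <;> fin_cases j <;> simp [profileMatrix] <;> fun_prop
  periodic x n := by
    simp only
    rw [h.periodic_int]
  posDef x := profileMatrix_posDef h.W_pos (lt_of_le_of_lt (h.sin_le _) (by norm_num))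

lemma metric_form (x v : Fin 3 → ℝ) :
    v ⬝ᵥ h.metric.coeff x *ᵥ v =
      W ^ 2 * v 0 ^ 2 + (1 + sin (Θ (x 0))) / 2 * (v 0 + v 1 + v 2) ^ 2 +
        (1 - sin (Θ (x 0))) / 2 * (v 1 - v 2) ^ 2 :=
  profileMatrix_form _ _ _

end IsProfile

/-- Basic tool: bounding a length from below by the increment of a function along the curve. -/
lemma length_ge {d : ℕ} (g : TorusMetric d) {γ : ℝ → Fin d → ℝ} (hγ : ContDiff ℝ 1 γ)
    {F f : ℝ → ℝ} (hF : ∀ t, HasDerivAt F (f t) t) (hfc : Continuous f)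
    (hle : ∀ t, f t ^ 2 ≤ (deriv γ t) ⬝ᵥ g.coeff (γ t) *ᵥ (deriv γ t)) :
    F 1 - F 0 ≤ g.length γ := by
  have h1 : ∫ t in (0 : ℝ)..1, f t = F 1 - F 0 :=
    intervalIntegral.integral_eq_sub_of_hasDerivAt (fun t _ => hF t)
      (hfc.intervalIntegrable _ _)
  rw [← h1]
  unfold TorusMetric.length
  have hcd : Continuous (deriv γ) := hγ.continuous_deriv (by norm_num)
  have hcg : ∀ i j, Continuous fun t => g.coeff (γ t) i j := fun i j =>
    (g.smooth i j).continuous.comp hγ.continuous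
  have hct : Continuous fun t => g.tnorm (γ t) (deriv γ t) := by
    unfold TorusMetric.tnorm
    simp only [dotProduct, mulVec]
    fun_prop
  apply intervalIntegral.integral_mono_on zero_le_one (hfc.intervalIntegrable _ _)
    (hct.intervalIntegrable _ _)
  intro t _
  unfold TorusMetric.tnorm
  exact (le_abs_self _).trans (Real.abs_le_sqrt (hle t))

end Pool.Agent.SystolicTorus
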