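import Mathlib
import Pool.Agent.SystolicTorus.Metric

/-!
# Lower bounds for the lengths of essential loops
-/

open Matrix MeasureTheory Real

open scoped ContDiff

namespace Pool.Agent.SystolicTorus

namespace IsProfile

variable {W : ℝ} {Θ : ℝ → ℝ} (h : IsProfile W Θ) {γ : ℝ → Fin 3 → ℝ}

lemma coord_hasDerivAt (hγ : ContDiff ℝ 1 γ) (i : Fin 3) (t : ℝ) :
    HasDerivAt (fun s => γ s i) (deriv γ t i) t := by
  have h1 : HasDerivAt γ (deriv γ t) t := (hγ.differentiable (by norm_num) t).hasDerivAt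
  exact (hasDerivAt_pi.1 h1) i

lemma coord_deriv_cont (hγ : ContDiff ℝ 1 γ) (i : Fin 3) : Continuous fun t => deriv γ t i :=
  (continuous_apply i).comp (hγ.continuous_deriv (by norm_num))

include h

/-- Loops crossing at least twice are long. -/
lemma length_ge_crossing_two (hγ : ContDiff ℝ 1 γ) {m : ℤ} (hm : 2 ≤ |m|)
    (hend : γ 1 0 = γ 0 0 + m) : 1 ≤ h.metric.length γ := by
  have hW := h.W_pos
  have key : ∀ ε : ℝ, ε ^ 2 = 1 → ε * W * (γ 1 0) - ε * W * (γ 0 0) ≤ h.metric.length γ := by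
    intro ε hε
    apply length_ge h.metric hγ (F := fun t => ε * W * γ t 0) (f := fun t => ε * W * deriv γ t 0)
    · intro t
      exact (coord_hasDerivAt hγ 0 t).const_mul (ε * W)
    · exact (coord_deriv_cont hγ 0).const_mul _ 
    · intro t
      rw [h.metric_form]
      obtain ⟨h1, h2⟩ := abs_le.1 (h.sin_le (γ t 0))
      have p1 : 0 ≤ (1 + sin (Θ (γ t 0))) / 2 := by linarith
      have p2 : 0 ≤ (1 - sin (Θ (γ t 0))) / 2 := by linarith
      have e : (ε * W * deriv γ t 0) ^ 2 = W ^ 2 * deriv γ t 0 ^ 2 := by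
        calc (ε * W * deriv γ t 0) ^ 2 = ε ^ 2 * (W ^ 2 * deriv γ t 0 ^ 2) := by ring
          _ = W ^ 2 * deriv γ t 0 ^ 2 := by rw [hε, one_mul]
      rw [e]
      have q1 := mul_nonneg p1 (sq_nonneg (deriv γ t 0 + deriv γ t 1 + deriv γ t 2))
      have q2 := mul_nonneg p2 (sq_nonneg (deriv γ t 1 - deriv γ t 2))
      linarith
  have hw := h.width
  rcases le_total 0 m with hm0 | hm0
  · rw [abs_of_nonneg hm0] at hm
    have h1 := key 1 (by norm_num)
    rw [hend] at h1
    have h2 : (2 : ℝ) ≤ m := by exact_mod_cast hm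
    nlinarith
  · rw [abs_of_nonpos hm0] at hm
    have h1 := key (-1) (by norm_num)
    rw [hend] at h1
    have h2 : (2 : ℝ) ≤ -m := by exact_mod_cast hm
    nlinarith

/-- Loops with even non-zero displacement in the `X` direction (or in the `Y` direction)
are long. -/
lemma length_ge_even (hγ : ContDiff ℝ 1 γ) {k l : ℤ}
    (hX : γ 1 0 + γ 1 1 + γ 1 2 = γ 0 0 + γ 0 1 + γ 0 2 + k)
    (hY : γ 1 1 - γ 1 2 = γ 0 1 - γ 0 2 + l) (hkl : 2 ≤ |k| ∨ 2 ≤ |l|) :
    1 ≤ h.metric.length γ := by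
  have hW := h.W_pos
  have keyX : ∀ ε : ℝ, ε ^ 2 = 1 → ε / 2 * (γ 1 0 + γ 1 1 + γ 1 2) -
      ε / 2 * (γ 0 0 + γ 0 1 + γ 0 2) ≤ h.metric.length γ := by
    intro ε hε
    apply length_ge h.metric hγ (F := fun t => ε / 2 * (γ t 0 + γ t 1 + γ t 2))
      (f := fun t => ε / 2 * (deriv γ t 0 + deriv γ t 1 + deriv γ t 2))
    · intro t
      exact (((coord_hasDerivAt hγ 0 t).add (coord_hasDerivAt hγ 1 t)).add
        (coord_hasDerivAt hγ 2 t)).const_mul (ε / 2)
    · exact (((coord_deriv_cont hγ 0).add (coord_deriv_cont hγ 1)).add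
        (coord_deriv_cont hγ 2)).const_mul _
    · intro t
      rw [h.metric_form]
      obtain ⟨h1, h2⟩ := abs_le.1 (h.sin_le (γ t 0))
      have p1 : 1 / 4 ≤ (1 + sin (Θ (γ t 0))) / 2 := by linarith
      have p2 : 0 ≤ (1 - sin (Θ (γ t 0))) / 2 := by linarith
      have e : (ε / 2 * (deriv γ t 0 + deriv γ t 1 + deriv γ t 2)) ^ 2 =
          1 / 4 * (deriv γ t 0 + deriv γ t 1 + deriv γ t 2) ^ 2 := by
        calc (ε / 2 * (deriv γ t 0 + deriv γ t 1 + deriv γ t 2)) ^ 2
            = ε ^ 2 * (1 / 4 * (deriv γ t 0 + deriv γ t 1 + deriv γ t 2) ^ 2) := by ring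
          _ = 1 / 4 * (deriv γ t 0 + deriv γ t 1 + deriv γ t 2) ^ 2 := by rw [hε, one_mul]
      rw [e]
      have q1 := mul_le_mul_of_nonneg_right p1
        (sq_nonneg (deriv γ t 0 + deriv γ t 1 + deriv γ t 2))
      have q2 := mul_nonneg p2 (sq_nonneg (deriv γ t 1 - deriv γ t 2))
      have q3 : 0 ≤ W ^ 2 * deriv γ t 0 ^ 2 := by positivity
      linarith
  have keyY : ∀ ε : ℝ, ε ^ 2 = 1 → ε / 2 * (γ 1 1 - γ 1 2) -
      ε / 2 * (γ 0 1 - γ 0 2) ≤ h.metric.length γ := by
    intro ε hε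
    apply length_ge h.metric hγ (F := fun t => ε / 2 * (γ t 1 - γ t 2))
      (f := fun t => ε / 2 * (deriv γ t 1 - deriv γ t 2))
    · intro t
      exact ((coord_hasDerivAt hγ 1 t).sub (coord_hasDerivAt hγ 2 t)).const_mul (ε / 2)
    · exact ((coord_deriv_cont hγ 1).sub (coord_deriv_cont hγ 2)).const_mul _
    · intro t
      rw [h.metric_form]
      obtain ⟨h1, h2⟩ := abs_le.1 (h.sin_le (γ t 0))
      have p1 : 0 ≤ (1 + sin (Θ (γ t 0))) / 2 := by linarith
      have p2 : 1 / 4 ≤ (1 - sin (Θ (γ t 0))) / 2 := by linarith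
      have e : (ε / 2 * (deriv γ t 1 - deriv γ t 2)) ^ 2 =
          1 / 4 * (deriv γ t 1 - deriv γ t 2) ^ 2 := by
        calc (ε / 2 * (deriv γ t 1 - deriv γ t 2)) ^ 2
            = ε ^ 2 * (1 / 4 * (deriv γ t 1 - deriv γ t 2) ^ 2) := by ring
          _ = 1 / 4 * (deriv γ t 1 - deriv γ t 2) ^ 2 := by rw [hε, one_mul]
      rw [e]
      have q1 := mul_nonneg p1 (sq_nonneg (deriv γ t 0 + deriv γ t 1 + deriv γ t 2))
      have q2 := mul_le_mul_of_nonneg_right p2 (sq_nonneg (deriv γ t 1 - deriv γ t 2))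
      have q3 : 0 ≤ W ^ 2 * deriv γ t 0 ^ 2 := by positivity
      linarith
  rcases hkl with hk | hl
  · rcases le_total 0 k with hm0 | hm0
    · rw [abs_of_nonneg hm0] at hk
      have h1 := keyX 1 (by norm_num)
      rw [hX] at h1
      have h2 : (2 : ℝ) ≤ k := by exact_mod_cast hk
      linarith
    · rw [abs_of_nonpos hm0] at hk
      have h1 := keyX (-1) (by norm_num)
      rw [hX] at h1
      have h2 : (2 : ℝ) ≤ -k := by exact_mod_cast hk
      linarith
  · rcases le_total 0 l with hm0 | hm0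
    · rw [abs_of_nonneg hm0] at hl
      have h1 := keyY 1 (by norm_num)
      rw [hY] at h1
      have h2 : (2 : ℝ) ≤ l := by exact_mod_cast hl
      linarith
    · rw [abs_of_nonpos hm0] at hl
      have h1 := keyY (-1) (by norm_num)
      rw [hY] at h1
      have h2 : (2 : ℝ) ≤ -l := by exact_mod_cast hl
      linarith

/-- The calibration estimate behind the bound for loops that cross exactly once.  Here `b` is
either `sin Θ` or `-sin Θ`, `Z` is the corresponding coordinate (`X` or `Y`). -/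
lemma length_ge_calib (hγ : ContDiff ℝ 1 γ) {p : ℝ} (hp : 0 < p) (hp2 : p ^ 2 ≤ 1 / 2)
    (b : ℝ → ℝ) (hb : Continuous b) (hbper : ∀ s, b (s + 1) = b s) (hbb : ∀ s, |b s| ≤ 1 / 2)
    (hcal : 1 ≤ p / √2 + W * ∫ s in (0 : ℝ)..1, √(1 - p ^ 2 / (1 + b s)))
    {Z z : ℝ → ℝ} (hZ : ∀ t, HasDerivAt Z (z t) t) (hz : Continuous z)
    (hform : ∀ t, W ^ 2 * deriv γ t 0 ^ 2 + (1 + b (γ t 0)) / 2 * z t ^ 2 ≤
      (deriv γ t) ⬝ᵥ h.metric.coeff (γ t) *ᵥ (deriv γ t))
    {m : ℤ} (hm : |m| = 1) (hend : γ 1 0 = γ 0 0 + m) {k : ℤ} (hk : k ≠ 0)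
    (hZend : Z 1 = Z 0 + k) :
    1 ≤ h.metric.length γ := by
  have hW := h.W_pos
  have h2pos : (0 : ℝ) < √2 := by positivity
  -- the calibrating density
  set η : ℝ → ℝ := fun s => √(1 - p ^ 2 / (1 + b s)) with hη
  have hb1 : ∀ s, 0 < 1 + b s := fun s => by
    have := (abs_le.1 (hbb s)).1; linarith
  have hηc : Continuous η := by
    apply Real.continuous_sqrt.comp
    apply Continuous.sub continuous_const
    exact continuous_const.div (continuous_const.add hb) fun s => (hb1 s).ne'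
  have hηper : Function.Periodic η 1 := by
    intro s; simp only [hη]; rw [hbper]
  have hηsq : ∀ s, η s ^ 2 = 1 - p ^ 2 / (1 + b s) := by
    intro s
    apply Real.sq_sqrt
    have : p ^ 2 / (1 + b s) ≤ 1 := by
      rw [div_le_one (hb1 s)]
      have := (abs_le.1 (hbb s)).1
      linarith
    linarith
  set H : ℝ → ℝ := fun x => ∫ s in (0 : ℝ)..x, η s with hH
  have hHd : ∀ x, HasDerivAt H (η x) x := fun x =>
    intervalIntegral.integral_hasDerivAt_right (hηc.intervalIntegrable _ _)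
      (hηc.stronglyMeasurableAtFilter _ _) hηc.continuousAt
  -- the two signs
  have key : ∀ δ ε : ℝ, δ ^ 2 = 1 → ε ^ 2 = 1 →
      (p / √2 * (ε * Z 1) + W * (δ * H (γ 1 0))) - (p / √2 * (ε * Z 0) + W * (δ * H (γ 0 0))) ≤
        h.metric.length γ := by
    intro δ ε hδ hε
    apply length_ge h.metric hγ
      (F := fun t => p / √2 * (ε * Z t) + W * (δ * H (γ t 0)))
      (f := fun t => p / √2 * (ε * z t) + W * (δ * (η (γ t 0) * deriv γ t 0)))
    · intro t
      refine ((hZ t).const_mul ε).const_mul (p / √2) |>.add ?_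
      refine HasDerivAt.const_mul W (HasDerivAt.const_mul δ ?_)
      exact (hHd (γ t 0)).comp t (coord_hasDerivAt hγ 0 t)
    · have c1 := coord_deriv_cont hγ 0
      have c2 : Continuous fun t => η (γ t 0) :=
        hηc.comp ((continuous_apply (0 : Fin 3)).comp hγ.continuous)
      exact ((hz.const_mul ε).const_mul (p / √2)).add (((c2.mul c1).const_mul δ).const_mul W)
    · intro t
      refine le_trans ?_ (hform t)
      have hbt := hb1 (γ t 0)
      have hs := hηsq (γ t 0)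
      set B := b (γ t 0) with hB
      set E := η (γ t 0) with hE
      set x := deriv γ t 0 with hx
      set y := z t with hy
      have hsq2 : (√2) ^ 2 = 2 := Real.sq_sqrt (by norm_num)
      -- Cauchy-Schwarz
      have hCS : (p / √2 * (ε * y) + W * (δ * (E * x))) ^ 2 ≤
          (p ^ 2 / (1 + B) + E ^ 2) * ((1 + B) / 2 * y ^ 2 + W ^ 2 * x ^ 2) := by
        have e1 : (p ^ 2 / (1 + B) + E ^ 2) * ((1 + B) / 2 * y ^ 2 + W ^ 2 * x ^ 2) =
            p ^ 2 / 2 * y ^ 2 + p ^ 2 / (1 + B) * (W ^ 2 * x ^ 2) +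
              E ^ 2 * ((1 + B) / 2 * y ^ 2) + E ^ 2 * (W ^ 2 * x ^ 2) := by
          field_simp
          ring
        have e2 : (p / √2 * (ε * y) + W * (δ * (E * x))) ^ 2 =
            p ^ 2 / 2 * y ^ 2 * ε ^ 2 + 2 * (p / √2) * (ε * y) * (W * (δ * (E * x))) +
              δ ^ 2 * (E ^ 2 * (W ^ 2 * x ^ 2)) := by
          have : (p / √2) ^ 2 = p ^ 2 / 2 := by rw [div_pow, hsq2]
          linear_combination (ε * y) ^ 2 * this
        rw [e1, e2, hδ, hε]
        -- AM-GM for the cross term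
        have hamgm : 2 * (p / √2) * (ε * y) * (W * (δ * (E * x))) ≤
            p ^ 2 / (1 + B) * (W ^ 2 * x ^ 2) + E ^ 2 * ((1 + B) / 2 * y ^ 2) := by
          have hr : 0 < √(1 + B) := Real.sqrt_pos.2 hbt
          have hr2 : √(1 + B) ^ 2 = 1 + B := Real.sq_sqrt hbt.le
          have hsqr := sq_nonneg (p / √(1 + B) * (W * x) * δ - E * (√(1 + B) / √2 * y) * ε)
          have f1 : (p / √(1 + B) * (W * x) * δ - E * (√(1 + B) / √2 * y) * ε) ^ 2 =
              p ^ 2 / (1 + B) * (W ^ 2 * x ^ 2) * δ ^ 2 + E ^ 2 * ((1 + B) / 2 * y ^ 2) * ε ^ 2 -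
                2 * (p / √2) * (ε * y) * (W * (δ * (E * x))) := by
            have g1 : (p / √(1 + B)) ^ 2 = p ^ 2 / (1 + B) := by rw [div_pow, hr2]
            have g2 : (√(1 + B) / √2) ^ 2 = (1 + B) / 2 := by rw [div_pow, hr2, hsq2]
            have g3 : p / √(1 + B) * (√(1 + B) / √2) = p / √2 := by
              field_simp
            linear_combination (W * x * δ) ^ 2 * g1 + (E * y * ε) ^ 2 * g2 -
              2 * (W * x * δ) * (E * y * ε) * g3
          rw [f1, hδ, hε] at hsqr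
          linarith
        linarith
      have e3 : p ^ 2 / (1 + B) + E ^ 2 = 1 := by rw [hs]; ring
      rw [e3, one_mul] at hCS
      linarith
  -- conclusion
  have hk1 : (1 : ℝ) ≤ |(k : ℝ)| := by
    have : (1 : ℤ) ≤ |k| := Int.one_le_abs hk
    exact_mod_cast this
  obtain ⟨ε, hε, hεk⟩ : ∃ ε : ℝ, ε ^ 2 = 1 ∧ ε * k = |(k : ℝ)| := by
    rcases le_total 0 (k : ℝ) with h0 | h0
    · exact ⟨1, by norm_num, by rw [abs_of_nonneg h0, one_mul]⟩
    · exact ⟨-1, by norm_num, by rw [abs_of_nonpos h0]; ring⟩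
  have hint : ∀ x : ℝ, H (x + 1) - H x = ∫ s in (0 : ℝ)..1, η s := by
    intro x
    have h1 : H (x + 1) - H x = ∫ s in x..(x + 1), η s := by
      simp only [hH]
      rw [intervalIntegral.integral_interval_sub_left (hηc.intervalIntegrable _ _)
        (hηc.intervalIntegrable _ _)]
    rw [h1]
    have := hηper.intervalIntegral_add_eq x 0
    simpa using this
  have hpk : p / √2 ≤ p / √2 * |(k : ℝ)| := by
    have : 0 < p / √2 := by positivity
    nlinarith
  have hmm : m = 1 ∨ m = -1 := by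
    rcases le_total 0 m with h0 | h0
    · left; rw [abs_of_nonneg h0] at hm; exact hm
    · right; rw [abs_of_nonpos h0] at hm; omega
  rcases hmm with rfl | rfl
  · have h1 := key 1 ε (by norm_num) hε
    have h2 := hint (γ 0 0)
    rw [hend, hZend] at h1
    push_cast at h1
    have h3 : p / √2 * (ε * (Z 0 + k)) + W * (1 * H (γ 0 0 + 1)) -
        (p / √2 * (ε * Z 0) + W * (1 * H (γ 0 0))) =
        p / √2 * (ε * k) + W * (H (γ 0 0 + 1) - H (γ 0 0)) := by ring
    rw [h3, hεk, h2] at h1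
    linarith
  · have h1 := key (-1) ε (by norm_num) hε
    have h2 := hint (γ 0 0 - 1)
    rw [sub_add_cancel] at h2
    rw [hend, hZend] at h1
    push_cast at h1
    have h3 : p / √2 * (ε * (Z 0 + k)) + W * (-1 * H (γ 0 0 + -1)) -
        (p / √2 * (ε * Z 0) + W * (-1 * H (γ 0 0))) =
        p / √2 * (ε * k) + W * (H (γ 0 0) - H (γ 0 0 - 1)) := by
      rw [← sub_eq_add_neg]; ring
    rw [h3, hεk, h2] at h1
    linarith

set_option maxHeartbeats 4000000 in
/-- Loops which do not cross and have odd displacement in the `X` and in the `Y` direction: by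
comparison with the round metric on the real projective space they have length at least `1`. -/
lemma length_ge_odd (hγ : ContDiff ℝ 1 γ) (hend : γ 1 0 = γ 0 0) {k l : ℤ}
    (hX : γ 1 0 + γ 1 1 + γ 1 2 = γ 0 0 + γ 0 1 + γ 0 2 + (2 * k + 1))
    (hY : γ 1 1 - γ 1 2 = γ 0 1 - γ 0 2 + (2 * l + 1)) :
    1 ≤ h.metric.length γ := by
  have hW := h.W_pos
  -- it suffices to bound the length by `u` for every `0 < u < 1`
  suffices hsuff : ∀ u : ℝ, 0 < u → u < 1 → u ≤ h.metric.length γ by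
    apply le_of_forall_lt_imp_le_of_dense
    intro u hu
    rcases le_or_gt u 0 with h0 | h0
    · exact h0.trans (h.metric.length_nonneg γ)
    · exact hsuff u h0 hu
  intro u hu0 hu1
  set κ : ℝ := sin (π / 2 * u) with hκ
  have hκ0 : 0 < κ := by
    apply Real.sin_pos_of_pos_of_lt_pi
    · positivity
    · nlinarith [Real.pi_pos]
  have hκ1 : κ < 1 := by
    have : sin (π / 2 * u) < sin (π / 2) := by
      apply Real.sin_lt_sin_of_lt_of_le_pi_div_two
      · nlinarith [Real.pi_pos]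
      · exact le_rfl
      · nlinarith [Real.pi_pos]
    rwa [Real.sin_pi_div_two] at this
  have harc : arcsin κ = π / 2 * u := by
    rw [hκ]
    apply Real.arcsin_sin
    · nlinarith [Real.pi_pos]
    · nlinarith [Real.pi_pos]
  -- the coordinates
  set X : ℝ → ℝ := fun t => γ t 0 + γ t 1 + γ t 2 with hXdef
  set x : ℝ → ℝ := fun t => deriv γ t 0 + deriv γ t 1 + deriv γ t 2 with hxdef
  set Y : ℝ → ℝ := fun t => γ t 1 - γ t 2 with hYdef
  set y : ℝ → ℝ := fun t => deriv γ t 1 - deriv γ t 2 with hydef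
  have hXd : ∀ t, HasDerivAt X (x t) t := fun t =>
    ((coord_hasDerivAt hγ 0 t).add (coord_hasDerivAt hγ 1 t)).add (coord_hasDerivAt hγ 2 t)
  have hYd : ∀ t, HasDerivAt Y (y t) t := fun t =>
    (coord_hasDerivAt hγ 1 t).sub (coord_hasDerivAt hγ 2 t)
  have hxc : Continuous x := ((coord_deriv_cont hγ 0).add (coord_deriv_cont hγ 1)).add
        (coord_deriv_cont hγ 2)
  have hyc : Continuous y := (coord_deriv_cont hγ 1).sub (coord_deriv_cont hγ 2)
  have hXc : Continuous X := continuous_iff_continuousAt.2 fun t => (hXd t).continuousAt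
  have hYc : Continuous Y := continuous_iff_continuousAt.2 fun t => (hYd t).continuousAt
  have hγ0c : Continuous fun t => γ t 0 := (continuous_apply (0 : Fin 3)).comp hγ.continuous
  -- the angle `r`
  set r : ℝ → ℝ := fun t => π / 4 - Θ (γ t 0) / 2 with hrdef
  set r' : ℝ → ℝ := fun t => -(deriv Θ (γ t 0) * deriv γ t 0) / 2 with hr'def
  have hΘd : ∀ s, HasDerivAt Θ (deriv Θ s) s := fun s =>
    (h.smooth.differentiable (by norm_num) s).hasDerivAt
  have hΘ'c : Continuous (deriv Θ) := h.smooth.continuous_deriv (by norm_num)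
  have hrd : ∀ t, HasDerivAt r (r' t) t := by
    intro t
    have h1 := (hΘd (γ t 0)).comp t (coord_hasDerivAt hγ 0 t)
    have h2 := (h1.div_const 2).const_sub (π / 4)
    have e : r' t = -(deriv Θ (γ t 0) * deriv γ t 0 / 2) := by simp only [hr'def]; ring
    rw [e]
    exact h2
  have hrc : Continuous r := continuous_iff_continuousAt.2 fun t => (hrd t).continuousAt
  have hr'c : Continuous r' := by
    have c1 : Continuous fun t => deriv Θ (γ t 0) := hΘ'c.comp hγ0c
    exact ((c1.mul (coord_deriv_cont hγ 0)).neg).div_const 2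
  have hcos2 : ∀ t, cos (r t) ^ 2 = (1 + sin (Θ (γ t 0))) / 2 := by
    intro t
    rw [Real.cos_sq]
    have : 2 * r t = π / 2 - Θ (γ t 0) := by simp only [hrdef]; ring
    rw [this, Real.cos_pi_div_two_sub]
    ring
  have hsin2 : ∀ t, sin (r t) ^ 2 = (1 - sin (Θ (γ t 0))) / 2 := by
    intro t
    have h1 := Real.sin_sq_add_cos_sq (r t)
    rw [hcos2 t] at h1
    linarith
  set c0 := cos (r 0) with hc0
  set s0 := sin (r 0) with hs0
  have hcs0 : c0 ^ 2 + s0 ^ 2 = 1 := by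
    have := Real.sin_sq_add_cos_sq (r 0)
    linarith
  -- the height function `φ`
  set φ : ℝ → ℝ := fun t => cos (r t) * c0 * cos (π * (X t - X 0)) +
    sin (r t) * s0 * cos (π * (Y t - Y 0)) with hφdef
  set φ' : ℝ → ℝ := fun t =>
    (-sin (r t) * c0 * cos (π * (X t - X 0)) + cos (r t) * s0 * cos (π * (Y t - Y 0))) * r' t
    + (-c0 * sin (π * (X t - X 0))) * (cos (r t) * (π * x t))
    + (-s0 * sin (π * (Y t - Y 0))) * (sin (r t) * (π * y t)) with hφ'def
  have hφd : ∀ t, HasDerivAt φ (φ' t) t := by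
    intro t
    have hA : HasDerivAt (fun t => π * (X t - X 0)) (π * x t) t :=
      ((hXd t).sub_const (X 0)).const_mul π
    have hB : HasDerivAt (fun t => π * (Y t - Y 0)) (π * y t) t :=
      ((hYd t).sub_const (Y 0)).const_mul π
    have h1 := (((hrd t).cos).mul_const c0).mul (hA.cos)
    have h2 := (((hrd t).sin).mul_const s0).mul (hB.cos)
    have h3 := h1.add h2
    have e : φ' t = -sin (r t) * r' t * c0 * cos (π * (X t - X 0)) +
        cos (r t) * c0 * (-sin (π * (X t - X 0)) * (π * x t)) +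
        (cos (r t) * r' t * s0 * cos (π * (Y t - Y 0)) +
        sin (r t) * s0 * (-sin (π * (Y t - Y 0)) * (π * y t))) := by
      simp only [hφ'def]; ring
    rw [e]
    exact h3
  have hφ'c : Continuous φ' := by
    simp only [hφ'def]
    fun_prop
  have hdot : ∀ t, (-sin (r t) * c0 * cos (π * (X t - X 0)) +
      cos (r t) * s0 * cos (π * (Y t - Y 0))) ^ 2 + (-c0 * sin (π * (X t - X 0))) ^ 2 +
      (-s0 * sin (π * (Y t - Y 0))) ^ 2 = 1 - φ t ^ 2 := by
    intro t
    have e1 := Real.sin_sq_add_cos_sq (r t)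
    have e2 := Real.sin_sq_add_cos_sq (π * (X t - X 0))
    have e3 := Real.sin_sq_add_cos_sq (π * (Y t - Y 0))
    simp only [hφdef]
    linear_combination (c0 ^ 2 * cos (π * (X t - X 0)) ^ 2 + s0 ^ 2 * cos (π * (Y t - Y 0)) ^ 2) * e1
      + c0 ^ 2 * e2 + s0 ^ 2 * e3 + hcs0
  have hφsq : ∀ t, φ t ^ 2 ≤ 1 := by
    intro t
    have i0 := hdot t
    have i1 := sq_nonneg (-sin (r t) * c0 * cos (π * (X t - X 0)) +
      cos (r t) * s0 * cos (π * (Y t - Y 0)))
    have i2 := sq_nonneg (-c0 * sin (π * (X t - X 0)))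
    have i3 := sq_nonneg (-s0 * sin (π * (Y t - Y 0)))
    linarith
  have hκφ : ∀ t, (κ * φ t) ^ 2 < 1 := by
    intro t
    have h1 : (κ * φ t) ^ 2 = κ ^ 2 * φ t ^ 2 := by ring
    rw [h1]
    have h2 := hφsq t
    have h3 : κ ^ 2 < 1 := by
      calc κ ^ 2 < 1 ^ 2 := pow_lt_pow_left₀ hκ1 hκ0.le (by norm_num)
        _ = 1 := by norm_num
    calc κ ^ 2 * φ t ^ 2 ≤ κ ^ 2 * 1 := mul_le_mul_of_nonneg_left h2 (sq_nonneg κ)
      _ < 1 := by linarith
  have hκφ1 : ∀ t, κ * φ t ≠ -1 := fun t hh => by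
    have := hκφ t; rw [hh] at this; norm_num at this
  have hκφ2 : ∀ t, κ * φ t ≠ 1 := fun t hh => by
    have := hκφ t; rw [hh] at this; norm_num at this
  -- apply the basic tool
  have hmain := length_ge h.metric hγ
    (F := fun t => -(1 / π) * arcsin (κ * φ t))
    (f := fun t => -(1 / π) * (1 / √(1 - (κ * φ t) ^ 2) * (κ * φ' t)))
    (by
      intro t
      refine HasDerivAt.const_mul (-(1 / π)) ?_
      exact (Real.hasDerivAt_arcsin (hκφ1 t) (hκφ2 t)).comp t ((hφd t).const_mul κ))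
    (by
      have hφc : Continuous φ := continuous_iff_continuousAt.2 fun t => (hφd t).continuousAt
      refine Continuous.mul continuous_const ?_
      refine Continuous.mul ?_ (continuous_const.mul hφ'c)
      refine continuous_const.div ?_ ?_
      · fun_prop
      · intro t
        have : 0 < 1 - (κ * φ t) ^ 2 := by linarith [hκφ t]
        exact (Real.sqrt_pos.2 this).ne')
    (by
      intro t
      rw [h.metric_form]
      have hpos : 0 < 1 - (κ * φ t) ^ 2 := by linarith [hκφ t]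
      have hπ := Real.pi_pos
      -- Cauchy-Schwarz
      set a1 := -sin (r t) * c0 * cos (π * (X t - X 0)) +
        cos (r t) * s0 * cos (π * (Y t - Y 0)) with ha1
      set a2 := -c0 * sin (π * (X t - X 0)) with ha2
      set a3 := -s0 * sin (π * (Y t - Y 0)) with ha3
      have hd : a1 ^ 2 + a2 ^ 2 + a3 ^ 2 = 1 - φ t ^ 2 := hdot t
      set b1 := r' t with hb1
      set b2 := cos (r t) * (π * x t) with hb2
      set b3 := sin (r t) * (π * y t) with hb3
      have hφ't : φ' t = a1 * b1 + a2 * b2 + a3 * b3 := rfl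
      have hCS : φ' t ^ 2 ≤ (a1 ^ 2 + a2 ^ 2 + a3 ^ 2) * (b1 ^ 2 + b2 ^ 2 + b3 ^ 2) := by
        rw [hφ't]
        have i1 : (a1 ^ 2 + a2 ^ 2 + a3 ^ 2) * (b1 ^ 2 + b2 ^ 2 + b3 ^ 2) -
            (a1 * b1 + a2 * b2 + a3 * b3) ^ 2 =
            (a1 * b2 - a2 * b1) ^ 2 + (a1 * b3 - a3 * b1) ^ 2 + (a2 * b3 - a3 * b2) ^ 2 := by
          ring
        have i2 := sq_nonneg (a1 * b2 - a2 * b1)
        have i3 := sq_nonneg (a1 * b3 - a3 * b1)
        have i4 := sq_nonneg (a2 * b3 - a3 * b2)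
        linarith
      have hQ : b1 ^ 2 + b2 ^ 2 + b3 ^ 2 ≤ π ^ 2 * (W ^ 2 * deriv γ t 0 ^ 2 +
          (1 + sin (Θ (γ t 0))) / 2 * (deriv γ t 0 + deriv γ t 1 + deriv γ t 2) ^ 2 +
          (1 - sin (Θ (γ t 0))) / 2 * (deriv γ t 1 - deriv γ t 2) ^ 2) := by
        have e2 : b2 ^ 2 = π ^ 2 * ((1 + sin (Θ (γ t 0))) / 2 *
            (deriv γ t 0 + deriv γ t 1 + deriv γ t 2) ^ 2) := by
          rw [hb2, mul_pow, hcos2 t]; simp only [hxdef]; ring
        have e3 : b3 ^ 2 = π ^ 2 * ((1 - sin (Θ (γ t 0))) / 2 *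
            (deriv γ t 1 - deriv γ t 2) ^ 2) := by
          rw [hb3, mul_pow, hsin2 t]; simp only [hydef]; ring
        have e1 : b1 ^ 2 ≤ π ^ 2 * (W ^ 2 * deriv γ t 0 ^ 2) := by
          have h1 : b1 ^ 2 = (deriv Θ (γ t 0)) ^ 2 * deriv γ t 0 ^ 2 / 4 := by
            simp only [hb1, hr'def]; ring
          have h2 : (deriv Θ (γ t 0)) ^ 2 ≤ (2 * π * W) ^ 2 := by
            rw [← sq_abs (deriv Θ (γ t 0))]
            exact pow_le_pow_left₀ (abs_nonneg _) (h.slope _) 2
          rw [h1]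
          have h3 := mul_le_mul_of_nonneg_right h2 (sq_nonneg (deriv γ t 0))
          have h4 : (2 * π * W) ^ 2 * deriv γ t 0 ^ 2 = 4 * (π ^ 2 * (W ^ 2 * deriv γ t 0 ^ 2)) := by
            ring
          linarith
        rw [e2, e3]
        linarith
      set Q := W ^ 2 * deriv γ t 0 ^ 2 +
          (1 + sin (Θ (γ t 0))) / 2 * (deriv γ t 0 + deriv γ t 1 + deriv γ t 2) ^ 2 +
          (1 - sin (Θ (γ t 0))) / 2 * (deriv γ t 1 - deriv γ t 2) ^ 2 with hQdef
      have hb0 : 0 ≤ b1 ^ 2 + b2 ^ 2 + b3 ^ 2 := by positivity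
      have hQ0 : 0 ≤ Q := by
        have : 0 ≤ π ^ 2 * Q := hb0.trans hQ
        exact nonneg_of_mul_nonneg_right this (by positivity)
      have h1 : φ' t ^ 2 ≤ (1 - φ t ^ 2) * (π ^ 2 * Q) := by
        rw [hd] at hCS
        have h1φ : 0 ≤ 1 - φ t ^ 2 := by linarith [hφsq t]
        exact hCS.trans (mul_le_mul_of_nonneg_left hQ h1φ)
      have h2 : (-(1 / π) * (1 / √(1 - (κ * φ t) ^ 2) * (κ * φ' t))) ^ 2 =
          κ ^ 2 * φ' t ^ 2 / (π ^ 2 * (1 - (κ * φ t) ^ 2)) := by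
        have hs := Real.sq_sqrt hpos.le
        have hs' : √(1 - (κ * φ t) ^ 2) ≠ 0 := (Real.sqrt_pos.2 hpos).ne'
        calc (-(1 / π) * (1 / √(1 - (κ * φ t) ^ 2) * (κ * φ' t))) ^ 2
            = κ ^ 2 * φ' t ^ 2 / (π ^ 2 * √(1 - (κ * φ t) ^ 2) ^ 2) := by
              field_simp
          _ = κ ^ 2 * φ' t ^ 2 / (π ^ 2 * (1 - (κ * φ t) ^ 2)) := by rw [hs]
      rw [h2, div_le_iff₀ (by positivity)]
      have h3 : κ ^ 2 * (1 - φ t ^ 2) ≤ 1 - (κ * φ t) ^ 2 := by
        have i1 : κ ^ 2 ≤ 1 := by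
          calc κ ^ 2 ≤ 1 ^ 2 := pow_le_pow_left₀ hκ0.le hκ1.le 2
            _ = 1 := by norm_num
        have i2 : 1 - (κ * φ t) ^ 2 - κ ^ 2 * (1 - φ t ^ 2) = 1 - κ ^ 2 := by ring
        linarith
      calc κ ^ 2 * φ' t ^ 2 ≤ κ ^ 2 * ((1 - φ t ^ 2) * (π ^ 2 * Q)) :=
            mul_le_mul_of_nonneg_left h1 (sq_nonneg κ)
        _ = (κ ^ 2 * (1 - φ t ^ 2)) * (π ^ 2 * Q) := by ring
        _ ≤ (1 - (κ * φ t) ^ 2) * (π ^ 2 * Q) :=
            mul_le_mul_of_nonneg_right h3 (by positivity)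
        _ = Q * (π ^ 2 * (1 - (κ * φ t) ^ 2)) := by ring)
  -- the end points
  have hφ0 : φ 0 = 1 := by
    simp only [hφdef, sub_self, mul_zero, Real.cos_zero, mul_one]
    rw [← hc0, ← hs0]
    linarith
  have hcosodd : ∀ j : ℤ, cos (π * (2 * j + 1)) = -1 := by
    intro j
    have e : π * (2 * (j : ℝ) + 1) = π + j * (2 * π) := by ring
    rw [e, Real.cos_add_int_mul_two_pi, Real.cos_pi]
  have hφ1 : φ 1 = -1 := by
    have hr1 : r 1 = r 0 := by simp only [hrdef]; rw [hend]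
    have hX1 : X 1 - X 0 = 2 * k + 1 := by simp only [hXdef]; linarith
    have hY1 : Y 1 - Y 0 = 2 * l + 1 := by simp only [hYdef]; linarith
    simp only [hφdef]
    rw [hr1, hX1, hY1, hcosodd, hcosodd, ← hc0, ← hs0]
    linarith
  rw [hφ0, hφ1] at hmain
  have e1 : κ * -1 = -κ := by ring
  rw [e1, mul_one, Real.arcsin_neg, harc] at hmain
  have e2 : -(1 / π) * -(π / 2 * u) - -(1 / π) * (π / 2 * u) = u := by
    field_simp
    ring
  rw [e2] at hmain
  exact hmain

end IsProfile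

end Pool.Agent.SystolicTorus
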