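import Mathlib
import Pool.Agent.SystolicTorus.Systole

/-!
# Systole and volume of the metric attached to a profile
-/

open Matrix MeasureTheory Real

open scoped ContDiff

namespace Pool.Agent.SystolicTorus

namespace IsProfile

variable {W : ℝ} {Θ : ℝ → ℝ} (h : IsProfile W Θ)

include h

/-- The systole of the metric is at least `1` as soon as the two calibration inequalities
hold. -/
theorem one_le_systole {p : ℝ} (hp : 0 < p) (hp2 : p ^ 2 ≤ 1 / 2)
    (hX : 1 ≤ p / √2 + W * ∫ s in (0 : ℝ)..1, √(1 - p ^ 2 / (1 + sin (Θ s))))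
    (hY : 1 ≤ p / √2 + W * ∫ s in (0 : ℝ)..1, √(1 - p ^ 2 / (1 + -sin (Θ s)))) :
    1 ≤ h.metric.systole := by
  apply TorusMetric.le_systole _ (by norm_num)
  rintro γ ⟨hγ, n, hn, hend⟩
  have hW := h.W_pos
  have hΘc : Continuous Θ := h.smooth.continuous
  have e0 := hend 0
  have e1 := hend 1
  have e2 := hend 2
  set m := n 0 with hm
  have hXe : γ 1 0 + γ 1 1 + γ 1 2 = γ 0 0 + γ 0 1 + γ 0 2 + ((n 0 + n 1 + n 2 : ℤ) : ℝ) := by
    push_cast; linarith
  have hYe : γ 1 1 - γ 1 2 = γ 0 1 - γ 0 2 + ((n 1 - n 2 : ℤ) : ℝ) := by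
    push_cast; linarith
  by_cases hm2 : 2 ≤ |m|
  · exact h.length_ge_crossing_two hγ hm2 e0
  push Not at hm2
  by_cases hm0 : m = 0
  · -- no crossing
    have hend0 : γ 1 0 = γ 0 0 := by rw [e0, hm0]; simp
    rcases Int.even_or_odd (n 1 + n 2) with hev | hodd
    · apply h.length_ge_even hγ hXe hYe
      obtain ⟨a, ha⟩ := hev
      by_contra hcon
      push Not at hcon
      obtain ⟨h1, h2⟩ := hcon
      have h1' := abs_lt.1 h1
      have h2' := abs_lt.1 h2
      apply hn
      funext i
      fin_cases i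
      · exact hm0
      · simp only [Pi.zero_apply]
        change n 1 = 0
        omega
      · simp only [Pi.zero_apply]
        change n 2 = 0
        omega
    · obtain ⟨a, ha⟩ := hodd
      apply h.length_ge_odd hγ hend0 (k := a) (l := a - n 2)
      · rw [hXe]
        have : n 0 + n 1 + n 2 = 2 * a + 1 := by omega
        rw [this]; push_cast; ring
      · rw [hYe]
        have : n 1 - n 2 = 2 * (a - n 2) + 1 := by omega
        rw [this]; push_cast; ring
  · -- crossing exactly once
    have hm1 : |m| = 1 := by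
      have := abs_pos.2 hm0
      omega
    by_cases hk : n 0 + n 1 + n 2 = 0
    · have hl : n 1 - n 2 ≠ 0 := by
        intro hl
        have := abs_lt.1 hm2
        rw [abs_eq (by norm_num)] at hm1
        rcases hm1 with h1 | h1 <;> omega
      apply h.length_ge_calib hγ hp hp2 (fun s => -sin (Θ s)) (by fun_prop)
        (fun s => by rw [h.periodic]) (fun s => by rw [abs_neg]; exact h.sin_le s) hY
        (Z := fun t => γ t 1 - γ t 2) (z := fun t => deriv γ t 1 - deriv γ t 2)
        (fun t => (coord_hasDerivAt hγ 1 t).sub (coord_hasDerivAt hγ 2 t))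
        ((coord_deriv_cont hγ 1).sub (coord_deriv_cont hγ 2)) _ hm1 e0 hl hYe
      intro t
      rw [h.metric_form]
      have := (abs_le.1 (h.sin_le (γ t 0))).1
      have p1 : 0 ≤ (1 + sin (Θ (γ t 0))) / 2 * (deriv γ t 0 + deriv γ t 1 + deriv γ t 2) ^ 2 :=
        mul_nonneg (by linarith) (sq_nonneg _)
      have p2 : (1 + -sin (Θ (γ t 0))) / 2 * (deriv γ t 1 - deriv γ t 2) ^ 2 =
        (1 - sin (Θ (γ t 0))) / 2 * (deriv γ t 1 - deriv γ t 2) ^ 2 := by ring
      rw [p2]
      linarith
    · apply h.length_ge_calib hγ hp hp2 (fun s => sin (Θ s)) (by fun_prop)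
        (fun s => by rw [h.periodic]) (fun s => h.sin_le s) hX
        (Z := fun t => γ t 0 + γ t 1 + γ t 2)
        (z := fun t => deriv γ t 0 + deriv γ t 1 + deriv γ t 2)
        (fun t => ((coord_hasDerivAt hγ 0 t).add (coord_hasDerivAt hγ 1 t)).add
          (coord_hasDerivAt hγ 2 t))
        (((coord_deriv_cont hγ 0).add (coord_deriv_cont hγ 1)).add (coord_deriv_cont hγ 2)) _
        hm1 e0 hk hXe
      intro t
      rw [h.metric_form]
      have := (abs_le.1 (h.sin_le (γ t 0))).2
      have p1 : 0 ≤ (1 - sin (Θ (γ t 0))) / 2 * (deriv γ t 1 - deriv γ t 2) ^ 2 :=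
        mul_nonneg (by linarith) (sq_nonneg _)
      linarith

/-- The volume of the metric attached to a profile. -/
theorem vol_eq : h.metric.vol = W * ∫ s in (0 : ℝ)..1, cos (Θ s) := by
  have hW := h.W_pos
  unfold TorusMetric.vol
  have h1 : ∀ x : Fin 3 → ℝ, √(h.metric.coeff x).det =
      ∏ i : Fin 3, (![fun s => W * cos (Θ s), fun _ => 1, fun _ => 1] : Fin 3 → ℝ → ℝ) i (x i) := by
    intro x
    have e : (h.metric.coeff x).det = (W * cos (Θ (x 0))) ^ 2 := by
      have e1 : (h.metric.coeff x).det = (profileMatrix W (sin (Θ (x 0)))).det := rfl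
      rw [e1, profileMatrix_det]
      have := Real.sin_sq_add_cos_sq (Θ (x 0))
      linear_combination -W ^ 2 * this
    rw [e, Real.sqrt_sq (mul_nonneg hW.le (h.cos_pos _).le)]
    simp [Fin.prod_univ_three]
  simp_rw [h1]
  have h2 : (volume : Measure (Fin 3 → ℝ)).restrict (Set.Icc 0 1) =
      Measure.pi fun _ : Fin 3 => (volume : Measure ℝ).restrict (Set.Icc 0 1) := by
    have e : Set.Icc (0 : Fin 3 → ℝ) 1 = Set.pi Set.univ fun _ => Set.Icc (0 : ℝ) 1 := by
      rw [Set.pi_univ_Icc]; rfl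
    rw [e, volume_pi, Measure.restrict_pi_pi]
  rw [h2, integral_fintype_prod_eq_prod]
  rw [Fin.prod_univ_three]
  simp only [Matrix.cons_val_zero, Matrix.cons_val_one, Matrix.cons_val_two, Matrix.head_cons,
    Matrix.tail_cons]
  have e1 : ∫ s in Set.Icc (0 : ℝ) 1, W * cos (Θ s) = W * ∫ s in (0 : ℝ)..1, cos (Θ s) := by
    rw [intervalIntegral.integral_of_le zero_le_one, integral_Icc_eq_integral_Ioc,
      integral_const_mul]
  rw [e1]
  simp

end IsProfile

end Pool.Agent.SystolicTorus
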