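import Mathlib

/-!
# Smoothing a Lipschitz periodic function
-/

open MeasureTheory Real Set

open scoped ContDiff Convolution

namespace Pool.Agent.SystolicTorus

/-- A Lipschitz `1`-periodic function can be uniformly approximated by smooth `1`-periodic
functions satisfying the same bound and the same Lipschitz bound. -/
lemma exists_smooth_approx (T : ℝ → ℝ) (K : NNReal) (hT : LipschitzWith K T)
    (hper : ∀ s, T (s + 1) = T s) (a : ℝ) (hb : ∀ s, |T s| ≤ a) (ε : ℝ) (hε : 0 < ε) :
    ∃ Θ : ℝ → ℝ, ContDiff ℝ ∞ Θ ∧ (∀ s, Θ (s + 1) = Θ s) ∧ (∀ s, |Θ s| ≤ a) ∧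
      (∀ s, |deriv Θ s| ≤ K) ∧ (∀ s, |Θ s - T s| ≤ ε) := by
  set r : ℝ := ε / (K + 1) with hr
  have hK1 : (0 : ℝ) < K + 1 := by positivity
  have hr0 : 0 < r := by positivity
  let φ : ContDiffBump (0 : ℝ) := ⟨r / 2, r, by positivity, by linarith⟩
  have hTc : Continuous T := hT.continuous
  let Θ : ℝ → ℝ := (φ.normed volume) ⋆[ContinuousLinearMap.lsmul ℝ ℝ, volume] T
  have hΘ : ∀ x, Θ x = ∫ t, φ.normed volume t * T (x - t) := by
    intro x
    simp only [Θ, convolution_def]
    rfl
  have hφint : Integrable (φ.normed volume) volume := φ.integrable_normed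
  have hφ1 : ∫ t, φ.normed volume t = 1 := φ.integral_normed
  have hφ0 : ∀ t, 0 ≤ φ.normed volume t := φ.nonneg_normed
  have hint : ∀ x, Integrable (fun t => φ.normed volume t * T (x - t)) volume := by
    intro x
    refine hφint.mul_bdd (c := a) ?_ ?_
    · exact (hTc.comp (continuous_const.sub continuous_id)).aestronglyMeasurable
    · exact Filter.Eventually.of_forall fun t => hb _
  refine ⟨Θ, ?_, ?_, ?_, ?_, ?_⟩
  · exact φ.hasCompactSupport_normed.contDiff_convolution_left _ φ.contDiff_normed
      hTc.locallyIntegrable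
  · intro s
    rw [hΘ, hΘ]
    congr 1
    funext t
    rw [show s + 1 - t = (s - t) + 1 by ring, hper]
  · intro s
    rw [hΘ, ← Real.norm_eq_abs]
    calc ‖∫ t, φ.normed volume t * T (s - t)‖ ≤ ∫ t, φ.normed volume t * a := by
          apply norm_integral_le_of_norm_le (hφint.mul_const a)
          refine Filter.Eventually.of_forall fun t => ?_
          rw [norm_mul, Real.norm_of_nonneg (hφ0 t)]
          exact mul_le_mul_of_nonneg_left (hb _) (hφ0 t)
      _ = a := by rw [integral_mul_const, hφ1, one_mul]
  · intro s
    have hLip : LipschitzWith K Θ := by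
      apply LipschitzWith.of_dist_le_mul
      intro x y
      rw [Real.dist_eq, hΘ, hΘ, ← integral_sub (hint x) (hint y), ← Real.norm_eq_abs]
      calc ‖∫ t, (φ.normed volume t * T (x - t) - φ.normed volume t * T (y - t))‖
          ≤ ∫ t, φ.normed volume t * (K * dist x y) := by
            apply norm_integral_le_of_norm_le (hφint.mul_const _)
            refine Filter.Eventually.of_forall fun t => ?_
            rw [← mul_sub, norm_mul, Real.norm_of_nonneg (hφ0 t)]
            apply mul_le_mul_of_nonneg_left _ (hφ0 t)
            have := hT.dist_le_mul (x - t) (y - t)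
            rw [dist_sub_right] at this
            rwa [Real.dist_eq] at this
        _ = K * dist x y := by rw [integral_mul_const, hφ1, one_mul]
    have := norm_deriv_le_of_lipschitz (x₀ := s) hLip
    rwa [Real.norm_eq_abs] at this
  · intro s
    rw [← Real.dist_eq]
    apply φ.dist_normed_convolution_le hTc.aestronglyMeasurable
    intro x hx
    have h1 := hT.dist_le_mul x s
    have h2 : dist x s < r := hx
    calc dist (T x) (T s) ≤ K * dist x s := h1
      _ ≤ K * r := by
          apply mul_le_mul_of_nonneg_left h2.le K.coe_nonneg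
      _ ≤ (K + 1) * r := by nlinarith
      _ = ε := by rw [hr]; field_simp

end Pool.Agent.SystolicTorus
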