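import Mathlib

/-!
# The trapezoidal profile and numerical estimates
-/

open MeasureTheory Real Set

namespace Pool.Agent.SystolicTorus

/-- The trapezoidal wave. -/
noncomputable def trap (W s : ℝ) : ℝ :=
  max (-(π / 6)) (min (π / 6) (2 * π * W * (1 / 4 - ‖(s : AddCircle (1 : ℝ))‖)))

lemma trap_periodic (W s : ℝ) : trap W (s + 1) = trap W s := by
  unfold trap
  have : ((s + 1 : ℝ) : AddCircle (1 : ℝ)) = (s : AddCircle (1 : ℝ)) := by
    rw [AddCircle.coe_add, AddCircle.coe_period, add_zero]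
  rw [this]

lemma trap_abs_le (W s : ℝ) : |trap W s| ≤ π / 6 := by
  unfold trap
  rw [abs_le]
  have := Real.pi_pos
  constructor
  · exact le_max_left _ _
  · apply max_le
    · linarith
    · exact min_le_left _ _

lemma trap_lipschitz (W : ℝ) (hW : 0 ≤ W) :
    LipschitzWith (Real.toNNReal (2 * π * W)) (trap W) := by
  have h0 : 0 ≤ 2 * π * W := by positivity
  have h1 : LipschitzWith (Real.toNNReal (2 * π * W))
      (fun s : ℝ => 2 * π * W * (1 / 4 - ‖(s : AddCircle (1 : ℝ))‖)) := by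
    apply LipschitzWith.of_dist_le_mul
    intro x y
    rw [Real.coe_toNNReal _ h0, Real.dist_eq, Real.dist_eq]
    have e : 2 * π * W * (1 / 4 - ‖(x : AddCircle (1 : ℝ))‖) -
        2 * π * W * (1 / 4 - ‖(y : AddCircle (1 : ℝ))‖) =
        2 * π * W * (‖(y : AddCircle (1 : ℝ))‖ - ‖(x : AddCircle (1 : ℝ))‖) := by ring
    rw [e, abs_mul, abs_of_nonneg h0]
    apply mul_le_mul_of_nonneg_left _ h0
    calc |‖(y : AddCircle (1 : ℝ))‖ - ‖(x : AddCircle (1 : ℝ))‖|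
        ≤ ‖(y : AddCircle (1 : ℝ)) - (x : AddCircle (1 : ℝ))‖ := abs_norm_sub_norm_le _ _
      _ = ‖((y - x : ℝ) : AddCircle (1 : ℝ))‖ := by rw [AddCircle.coe_sub]
      _ ≤ |y - x| := by
          rw [UnitAddCircle.norm_eq]
          simpa using round_le (y - x) 0
      _ = |x - y| := abs_sub_comm _ _
  exact (h1.const_min (π / 6)).const_max (-(π / 6))

lemma trap_symm (W s : ℝ) : trap W (1 - s) = trap W s := by
  unfold trap
  have : ((1 - s : ℝ) : AddCircle (1 : ℝ)) = -(s : AddCircle (1 : ℝ)) := by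
    rw [AddCircle.coe_sub, AddCircle.coe_period, zero_sub]
  rw [this, norm_neg]

lemma trap_of_mem {W s : ℝ} (h0 : 0 ≤ s) (h1 : s ≤ 1 / 2) :
    trap W s = max (-(π / 6)) (min (π / 6) (2 * π * W * (1 / 4 - s))) := by
  unfold trap
  have : ‖(s : AddCircle (1 : ℝ))‖ = |s| := by
    rw [AddCircle.norm_coe_eq_abs_iff _ one_ne_zero, abs_of_nonneg h0]
    simpa using h1
  rw [this, abs_of_nonneg h0]

lemma trap_left {W s : ℝ} (hW : 0 < W) (h0 : 0 ≤ s) (h1 : s ≤ 1 / 4 - 1 / (12 * W)) :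
    trap W s = π / 6 := by
  have hπ := Real.pi_pos
  have h2 : 0 < 1 / (12 * W) := by positivity
  rw [trap_of_mem h0 (by linarith)]
  have h3 : π / 6 ≤ 2 * π * W * (1 / 4 - s) := by
    have h4 : 1 / (12 * W) ≤ 1 / 4 - s := by linarith
    calc π / 6 = 2 * π * W * (1 / (12 * W)) := by field_simp; ring
      _ ≤ 2 * π * W * (1 / 4 - s) := mul_le_mul_of_nonneg_left h4 (by positivity)
  rw [min_eq_left h3, max_eq_right (by linarith)]

lemma trap_right {W s : ℝ} (hW : 0 < W) (h0 : 1 / 4 + 1 / (12 * W) ≤ s) (h1 : s ≤ 1 / 2) :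
    trap W s = -(π / 6) := by
  have hπ := Real.pi_pos
  have h2 : 0 < 1 / (12 * W) := by positivity
  rw [trap_of_mem (by linarith) h1]
  have h3 : 2 * π * W * (1 / 4 - s) ≤ -(π / 6) := by
    have h4 : 1 / 4 - s ≤ -(1 / (12 * W)) := by linarith
    calc 2 * π * W * (1 / 4 - s) ≤ 2 * π * W * (-(1 / (12 * W))) :=
          mul_le_mul_of_nonneg_left h4 (by positivity)
      _ = -(π / 6) := by field_simp; ring
  rw [min_eq_right (by linarith), max_eq_left h3]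

lemma trap_mid {W s : ℝ} (hW : 0 < W) (h0 : 1 / 4 - 1 / (12 * W) ≤ s)
    (h1 : s ≤ 1 / 4 + 1 / (12 * W)) (h2 : 0 ≤ s) (h3 : s ≤ 1 / 2) :
    trap W s = 2 * π * W * (1 / 4 - s) := by
  have hπ := Real.pi_pos
  rw [trap_of_mem h2 h3]
  have h4 : 2 * π * W * (1 / 4 - s) ≤ π / 6 := by
    calc 2 * π * W * (1 / 4 - s) ≤ 2 * π * W * (1 / (12 * W)) :=
          mul_le_mul_of_nonneg_left (by linarith) (by positivity)
      _ = π / 6 := by field_simp; ring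
  have h5 : -(π / 6) ≤ 2 * π * W * (1 / 4 - s) := by
    calc -(π / 6) = 2 * π * W * (-(1 / (12 * W))) := by field_simp; ring
      _ ≤ 2 * π * W * (1 / 4 - s) := mul_le_mul_of_nonneg_left (by linarith) (by positivity)
  rw [min_eq_right h4, max_eq_right h5]

lemma trap_continuous (W : ℝ) (hW : 0 ≤ W) : Continuous (trap W) := (trap_lipschitz W hW).continuous

/-- The integral over a period of a function of the trapezoidal wave. -/
lemma integral_trap {W : ℝ} (hW : 1 / 3 ≤ W) {F : ℝ → ℝ} (hF : Continuous F) :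
    W * ∫ s in (0 : ℝ)..1, F (trap W s) =
      (W / 2 - 1 / 6) * (F (π / 6) + F (-(π / 6))) +
        1 / π * ∫ x in (-(π / 6))..(π / 6), F x := by
  have hW0 : 0 < W := by linarith
  have hπ := Real.pi_pos
  set s1 : ℝ := 1 / 4 - 1 / (12 * W) with hs1
  set s2 : ℝ := 1 / 4 + 1 / (12 * W) with hs2
  have hinv : 1 / (12 * W) ≤ 1 / 4 := by
    rw [div_le_div_iff₀ (by positivity) (by norm_num)]; linarith
  have hinv0 : 0 < 1 / (12 * W) := by positivity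
  have h01 : 0 ≤ s1 := by linarith
  have h12 : s1 ≤ s2 := by linarith
  have h2h : s2 ≤ 1 / 2 := by linarith
  have hc : Continuous fun s => F (trap W s) := hF.comp (trap_continuous W hW0.le)
  have hi : ∀ a b : ℝ, IntervalIntegrable (fun s => F (trap W s)) volume a b := fun a b =>
    hc.intervalIntegrable _ _
  -- halves
  have hhalf : ∫ s in (0 : ℝ)..1, F (trap W s) = 2 * ∫ s in (0 : ℝ)..(1 / 2), F (trap W s) := by
    rw [← intervalIntegral.integral_add_adjacent_intervals (hi 0 (1 / 2)) (hi (1 / 2) 1)]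
    have : ∫ s in (1 / 2 : ℝ)..1, F (trap W s) = ∫ s in (0 : ℝ)..(1 / 2), F (trap W s) := by
      have h1 := intervalIntegral.integral_comp_sub_left (a := (0 : ℝ)) (b := 1 / 2)
        (fun s => F (trap W s)) 1
      have h2 : (1 : ℝ) - 1 / 2 = 1 / 2 := by norm_num
      rw [h2, sub_zero] at h1
      rw [← h1]
      congr 1
      funext s
      rw [trap_symm]
    rw [this]; ring
  rw [hhalf, ← intervalIntegral.integral_add_adjacent_intervals (hi 0 s1) (hi s1 (1 / 2)),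
    ← intervalIntegral.integral_add_adjacent_intervals (hi s1 s2) (hi s2 (1 / 2))]
  have e1 : ∫ s in (0 : ℝ)..s1, F (trap W s) = s1 * F (π / 6) := by
    have : ∫ s in (0 : ℝ)..s1, F (trap W s) = ∫ s in (0 : ℝ)..s1, F (π / 6) := by
      apply intervalIntegral.integral_congr
      intro s hs
      rw [uIcc_of_le h01] at hs
      simp only
      rw [trap_left hW0 hs.1 hs.2]
    rw [this]; simp
  have e3 : ∫ s in s2..(1 / 2 : ℝ), F (trap W s) = s1 * F (-(π / 6)) := by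
    have : ∫ s in s2..(1 / 2 : ℝ), F (trap W s) = ∫ s in s2..(1 / 2 : ℝ), F (-(π / 6)) := by
      apply intervalIntegral.integral_congr
      intro s hs
      rw [uIcc_of_le h2h] at hs
      simp only
      rw [trap_right hW0 hs.1 hs.2]
    rw [this]
    simp only [intervalIntegral.integral_const, smul_eq_mul]
    rw [hs2, hs1]; ring
  have e2 : ∫ s in s1..s2, F (trap W s) =
      (2 * π * W)⁻¹ * ∫ x in (-(π / 6))..(π / 6), F x := by
    have : ∫ s in s1..s2, F (trap W s) = ∫ s in s1..s2, F (2 * π * W / 4 - 2 * π * W * s) := by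
      apply intervalIntegral.integral_congr
      intro s hs
      rw [uIcc_of_le h12] at hs
      simp only
      rw [trap_mid hW0 hs.1 hs.2 (by linarith [hs.1]) (by linarith [hs.2])]
      congr 1
      ring
    rw [this, intervalIntegral.integral_comp_sub_mul _ (by positivity)]
    rw [smul_eq_mul]
    congr 2
    · rw [hs2]; field_simp; ring
    · rw [hs1]; field_simp; ring
  rw [e1, e2, e3, hs1]
  field_simp
  ring

lemma N_nonneg_0 (b : ℝ) (h1 : (-1 / 2) ≤ b) (h2 : b ≤ (-1 / 4)) :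
    0 ≤ 1 + b - (27 / 50) ^ 2 - (1 + b) * (8409 / 10000 + 168 / 1000 * b - 18 / 100 * b ^ 2 + 326 / 1000 * b ^ 3 - 416 / 1000 * b ^ 4) ^ 2 := by
  have y : 0 ≤ b - (-1 / 2) := by linarith
  have z : 0 ≤ (-1 / 4) - b := by linarith
  have e : 1 + b - (27 / 50) ^ 2 - (1 + b) * (8409 / 10000 + 168 / 1000 * b - 18 / 100 * b ^ 2 + 326 / 1000 * b ^ 3 - 416 / 1000 * b ^ 4) ^ 2 =
    (29771648 / 390625) * ((b - (-1 / 2)) ^ 0 * ((-1 / 4) - b) ^ 9) +
    (1991820736 / 390625) * ((b - (-1 / 2)) ^ 1 * ((-1 / 4) - b) ^ 8) +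
    (2308101216 / 78125) * ((b - (-1 / 2)) ^ 2 * ((-1 / 4) - b) ^ 7) +
    (29618213104 / 390625) * ((b - (-1 / 2)) ^ 3 * ((-1 / 4) - b) ^ 6) +
    (42781946312 / 390625) * ((b - (-1 / 2)) ^ 4 * ((-1 / 4) - b) ^ 5) +
    (37762149908 / 390625) * ((b - (-1 / 2)) ^ 5 * ((-1 / 4) - b) ^ 4) +
    (20778134426 / 390625) * ((b - (-1 / 2)) ^ 6 * ((-1 / 4) - b) ^ 3) +
    (1389420593 / 78125) * ((b - (-1 / 2)) ^ 7 * ((-1 / 4) - b) ^ 2) +
    (1292398044 / 390625) * ((b - (-1 / 2)) ^ 8 * ((-1 / 4) - b) ^ 1) +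
    (103402197 / 390625) * ((b - (-1 / 2)) ^ 9 * ((-1 / 4) - b) ^ 0) := by
    ring
  rw [e]
  positivity

lemma N_nonneg_1 (b : ℝ) (h1 : (-1 / 4) ≤ b) (h2 : b ≤ (0)) :
    0 ≤ 1 + b - (27 / 50) ^ 2 - (1 + b) * (8409 / 10000 + 168 / 1000 * b - 18 / 100 * b ^ 2 + 326 / 1000 * b ^ 3 - 416 / 1000 * b ^ 4) ^ 2 := by
  have y : 0 ≤ b - (-1 / 4) := by linarith
  have z : 0 ≤ (0) - b := by linarith
  have e : 1 + b - (27 / 50) ^ 2 - (1 + b) * (8409 / 10000 + 168 / 1000 * b - 18 / 100 * b ^ 2 + 326 / 1000 * b ^ 3 - 416 / 1000 * b ^ 4) ^ 2 =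
    (103402197 / 390625) * ((b - (-1 / 4)) ^ 0 * ((0) - b) ^ 9) +
    (568841502 / 390625) * ((b - (-1 / 4)) ^ 1 * ((0) - b) ^ 8) +
    (1158650629 / 390625) * ((b - (-1 / 4)) ^ 2 * ((0) - b) ^ 7) +
    (243800508 / 78125) * ((b - (-1 / 4)) ^ 3 * ((0) - b) ^ 6) +
    (1445691296 / 390625) * ((b - (-1 / 4)) ^ 4 * ((0) - b) ^ 5) +
    (2772166432 / 390625) * ((b - (-1 / 4)) ^ 5 * ((0) - b) ^ 4) +
    (3637707392 / 390625) * ((b - (-1 / 4)) ^ 6 * ((0) - b) ^ 3) +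
    (2575012864 / 390625) * ((b - (-1 / 4)) ^ 7 * ((0) - b) ^ 2) +
    (184289536 / 78125) * ((b - (-1 / 4)) ^ 8 * ((0) - b) ^ 1) +
    (131808256 / 390625) * ((b - (-1 / 4)) ^ 9 * ((0) - b) ^ 0) := by
    ring
  rw [e]
  positivity

lemma N_nonneg_2 (b : ℝ) (h1 : (0) ≤ b) (h2 : b ≤ (1 / 4)) :
    0 ≤ 1 + b - (27 / 50) ^ 2 - (1 + b) * (8409 / 10000 + 168 / 1000 * b - 18 / 100 * b ^ 2 + 326 / 1000 * b ^ 3 - 416 / 1000 * b ^ 4) ^ 2 := by
  have y : 0 ≤ b - (0) := by linarith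
  have z : 0 ≤ (1 / 4) - b := by linarith
  have e : 1 + b - (27 / 50) ^ 2 - (1 + b) * (8409 / 10000 + 168 / 1000 * b - 18 / 100 * b ^ 2 + 326 / 1000 * b ^ 3 - 416 / 1000 * b ^ 4) ^ 2 =
    (131808256 / 390625) * ((b - (0)) ^ 0 * ((1 / 4) - b) ^ 9) +
    (1451100928 / 390625) * ((b - (0)) ^ 1 * ((1 / 4) - b) ^ 8) +
    (6812238848 / 390625) * ((b - (0)) ^ 2 * ((1 / 4) - b) ^ 7) +
    (17785480576 / 390625) * ((b - (0)) ^ 3 * ((1 / 4) - b) ^ 6) +
    (5667528352 / 78125) * ((b - (0)) ^ 4 * ((1 / 4) - b) ^ 5) +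
    (28446618016 / 390625) * ((b - (0)) ^ 5 * ((1 / 4) - b) ^ 4) +
    (17881092268 / 390625) * ((b - (0)) ^ 6 * ((1 / 4) - b) ^ 3) +
    (6729159683 / 390625) * ((b - (0)) ^ 7 * ((1 / 4) - b) ^ 2) +
    (1363203866 / 390625) * ((b - (0)) ^ 8 * ((1 / 4) - b) ^ 1) +
    (22711639 / 78125) * ((b - (0)) ^ 9 * ((1 / 4) - b) ^ 0) := by
    ring
  rw [e]
  positivity

lemma N_nonneg_3 (b : ℝ) (h1 : (1 / 4) ≤ b) (h2 : b ≤ (3 / 8)) :
    0 ≤ 1 + b - (27 / 50) ^ 2 - (1 + b) * (8409 / 10000 + 168 / 1000 * b - 18 / 100 * b ^ 2 + 326 / 1000 * b ^ 3 - 416 / 1000 * b ^ 4) ^ 2 := by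
  have y : 0 ≤ b - (1 / 4) := by linarith
  have z : 0 ≤ (3 / 8) - b := by linarith
  have e : 1 + b - (27 / 50) ^ 2 - (1 + b) * (8409 / 10000 + 168 / 1000 * b - 18 / 100 * b ^ 2 + 326 / 1000 * b ^ 3 - 416 / 1000 * b ^ 4) ^ 2 =
    (11628359168 / 78125) * ((b - (1 / 4)) ^ 0 * ((3 / 8) - b) ^ 9) +
    (435934054144 / 390625) * ((b - (1 / 4)) ^ 1 * ((3 / 8) - b) ^ 8) +
    (1383055626112 / 390625) * ((b - (1 / 4)) ^ 2 * ((3 / 8) - b) ^ 7) +
    (2397047878592 / 390625) * ((b - (1 / 4)) ^ 3 * ((3 / 8) - b) ^ 6) +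
    (2438682561824 / 390625) * ((b - (1 / 4)) ^ 4 * ((3 / 8) - b) ^ 5) +
    (58258538896 / 15625) * ((b - (1 / 4)) ^ 5 * ((3 / 8) - b) ^ 4) +
    (501429583784 / 390625) * ((b - (1 / 4)) ^ 6 * ((3 / 8) - b) ^ 3) +
    (127730193172 / 390625) * ((b - (1 / 4)) ^ 7 * ((3 / 8) - b) ^ 2) +
    (48705964832 / 390625) * ((b - (1 / 4)) ^ 8 * ((3 / 8) - b) ^ 1) +
    (12839866484 / 390625) * ((b - (1 / 4)) ^ 9 * ((3 / 8) - b) ^ 0) := by
    ring
  rw [e]
  positivity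

lemma N_nonneg_4 (b : ℝ) (h1 : (3 / 8) ≤ b) (h2 : b ≤ (1 / 2)) :
    0 ≤ 1 + b - (27 / 50) ^ 2 - (1 + b) * (8409 / 10000 + 168 / 1000 * b - 18 / 100 * b ^ 2 + 326 / 1000 * b ^ 3 - 416 / 1000 * b ^ 4) ^ 2 := by
  have y : 0 ≤ b - (3 / 8) := by linarith
  have z : 0 ≤ (1 / 2) - b := by linarith
  have e : 1 + b - (27 / 50) ^ 2 - (1 + b) * (8409 / 10000 + 168 / 1000 * b - 18 / 100 * b ^ 2 + 326 / 1000 * b ^ 3 - 416 / 1000 * b ^ 4) ^ 2 =
    (12839866484 / 390625) * ((b - (3 / 8)) ^ 0 * ((1 / 2) - b) ^ 9) +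
    (36482326376 / 78125) * ((b - (3 / 8)) ^ 1 * ((1 / 2) - b) ^ 8) +
    (1197375529556 / 390625) * ((b - (3 / 8)) ^ 2 * ((1 / 2) - b) ^ 7) +
    (4460115336688 / 390625) * ((b - (3 / 8)) ^ 3 * ((1 / 2) - b) ^ 6) +
    (10233543280448 / 390625) * ((b - (3 / 8)) ^ 4 * ((1 / 2) - b) ^ 5) +
    (15024292274944 / 390625) * ((b - (3 / 8)) ^ 5 * ((1 / 2) - b) ^ 4) +
    (2838466857984 / 78125) * ((b - (3 / 8)) ^ 6 * ((1 / 2) - b) ^ 3) +
    (8364533436416 / 390625) * ((b - (3 / 8)) ^ 7 * ((1 / 2) - b) ^ 2) +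
    (2804312752128 / 390625) * ((b - (3 / 8)) ^ 8 * ((1 / 2) - b) ^ 1) +
    (409052971008 / 390625) * ((b - (3 / 8)) ^ 9 * ((1 / 2) - b) ^ 0) := by
    ring
  rw [e]
  positivity

/-- The polynomial lower bound for `√(1 - p²/(1+b))`, `p = 27/50`. -/
noncomputable def Rp (b : ℝ) : ℝ :=
  8409 / 10000 + 168 / 1000 * b - 18 / 100 * b ^ 2 + 326 / 1000 * b ^ 3 - 416 / 1000 * b ^ 4

lemma Rp_le {b : ℝ} (hb : |b| ≤ 1 / 2) : Rp b ≤ √(1 - (27 / 50) ^ 2 / (1 + b)) := by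
  obtain ⟨h1, h2⟩ := abs_le.1 hb
  have hpos : 0 < 1 + b := by linarith
  have hN : 0 ≤ 1 + b - (27 / 50) ^ 2 - (1 + b) * Rp b ^ 2 := by
    unfold Rp
    rcases le_or_gt b (-1 / 4) with c1 | c1
    · exact N_nonneg_0 b (by linarith) c1
    rcases le_or_gt b 0 with c2 | c2
    · exact N_nonneg_1 b c1.le c2
    rcases le_or_gt b (1 / 4) with c3 | c3
    · exact N_nonneg_2 b c2.le c3
    rcases le_or_gt b (3 / 8) with c4 | c4
    · exact N_nonneg_3 b c3.le c4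
    · exact N_nonneg_4 b c4.le h2
  refine (le_abs_self _).trans (Real.abs_le_sqrt ?_)
  have h3 : (1 + b) * Rp b ^ 2 ≤ (1 + b) * (1 - (27 / 50) ^ 2 / (1 + b)) := by
    have : (1 + b) * (1 - (27 / 50) ^ 2 / (1 + b)) = 1 + b - (27 / 50) ^ 2 := by
      field_simp
    rw [this]; linarith
  exact le_of_mul_le_mul_left h3 hpos

end Pool.Agent.SystolicTorus
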