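import Mathlib
import Pool.Agent.SystolicTorus.Trapezoid
import Pool.Agent.SystolicTorus.Smoothing
import Pool.Agent.SystolicTorus.Main

/-!
# Numerical estimates and the existence of a good smooth profile
-/

open MeasureTheory Real Set

open scoped ContDiff

namespace Pool.Agent.SystolicTorus

/-- The calibrating density as a function of `b = sin Θ`. -/
noncomputable def cal (b : ℝ) : ℝ := √(1 - (27 / 50) ^ 2 / (1 + max b (-(1 / 2))))

lemma cal_continuous : Continuous cal := by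
  unfold cal
  apply Real.continuous_sqrt.comp
  apply Continuous.sub continuous_const
  refine continuous_const.div (by fun_prop) fun b => ?_
  have : -(1 / 2) ≤ max b (-(1 / 2)) := le_max_right _ _
  linarith

lemma cal_eq {b : ℝ} (hb : -(1 / 2) ≤ b) : cal b = √(1 - (27 / 50) ^ 2 / (1 + b)) := by
  unfold cal
  rw [max_eq_left hb]

lemma sin_abs_le {x : ℝ} (h1 : -(π / 6) ≤ x) (h2 : x ≤ π / 6) : |sin x| ≤ 1 / 2 := by
  rw [abs_le]
  constructor
  · rw [← Real.sin_pi_div_six, ← Real.sin_neg]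
    apply Real.sin_le_sin_of_le_of_le_pi_div_two <;> linarith [Real.pi_pos]
  · rw [← Real.sin_pi_div_six]
    apply Real.sin_le_sin_of_le_of_le_pi_div_two <;> linarith [Real.pi_pos]

/-- An antiderivative of `Rp (sin x)`. -/
noncomputable def RpA (x : ℝ) : ℝ :=
  8409 / 10000 * x + 168 / 1000 * (-cos x) - 18 / 100 * (x / 2 - sin x * cos x / 2)
    + 326 / 1000 * (-cos x + cos x ^ 3 / 3)
    - 416 / 1000 * (3 / 8 * x - 3 / 8 * (sin x * cos x) - 1 / 4 * (sin x ^ 3 * cos x))

lemma RpA_hasDerivAt (x : ℝ) : HasDerivAt RpA (Rp (sin x)) x := by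
  have hs := Real.hasDerivAt_sin x
  have hc := Real.hasDerivAt_cos x
  have hid := hasDerivAt_id x
  have h1 := (((((hid.const_mul (8409 / 10000)).add ((hc.neg).const_mul (168 / 1000))).sub
    (((hid.div_const 2).sub ((hs.mul hc).div_const 2)).const_mul (18 / 100))).add
    ((hc.neg.add ((hc.pow 3).div_const 3)).const_mul (326 / 1000))).sub
    ((((hid.const_mul (3 / 8)).sub ((hs.mul hc).const_mul (3 / 8))).sub
      (((hs.pow 3).mul hc).const_mul (1 / 4))).const_mul (416 / 1000)))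
  have hsc := Real.sin_sq_add_cos_sq x
  have hcc : cos x ^ 2 = 1 - sin x ^ 2 := by linarith
  have h2 : HasDerivAt RpA _ x := h1
  refine h2.congr_deriv ?_
  unfold Rp
  simp only [Nat.cast_ofNat, Nat.add_one_sub_one, Pi.pow_apply]
  linear_combination (0 : ℝ) * hsc
    + (-(326 / 1000) * sin x - (18 / 100) / 2 + 416 / 1000 * (- 3 / 8 - 3 / 4 * sin x ^ 2)
      + (123 / 250 + 78 / 125 * sin x ^ 2)) * hcc

lemma integral_Rp : ∫ x in (-(π / 6))..(π / 6), Rp (sin x) =
    8409 / 10000 * (π / 3) - 18 / 100 * (π / 6 - √3 / 4) - 416 / 1000 * (π / 8 - 7 * √3 / 32) := by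
  have hc : Continuous fun x => Rp (sin x) := by unfold Rp; fun_prop
  rw [intervalIntegral.integral_eq_sub_of_hasDerivAt (fun x _ => RpA_hasDerivAt x)
    (hc.intervalIntegrable _ _)]
  unfold RpA
  rw [Real.sin_neg, Real.cos_neg, Real.sin_pi_div_six, Real.cos_pi_div_six]
  ring

lemma integral_cal : ∫ x in (-(π / 6))..(π / 6), Rp (sin x) ≤
    ∫ x in (-(π / 6))..(π / 6), cal (sin x) := by
  have hπ := Real.pi_pos
  have hc : Continuous fun x => Rp (sin x) := by unfold Rp; fun_prop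
  have hc2 : Continuous fun x => cal (sin x) := cal_continuous.comp Real.continuous_sin
  apply intervalIntegral.integral_mono_on (by linarith) (hc.intervalIntegrable _ _)
    (hc2.intervalIntegrable _ _)
  intro x hx
  have h1 := sin_abs_le hx.1 hx.2
  rw [cal_eq (by have := (abs_le.1 h1).1; linarith)]
  exact Rp_le h1

lemma integral_cal_neg : ∫ x in (-(π / 6))..(π / 6), cal (-sin x) =
    ∫ x in (-(π / 6))..(π / 6), cal (sin x) := by
  have h := intervalIntegral.integral_comp_neg (a := -(π / 6)) (b := π / 6)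
    (fun x => cal (sin x))
  simp only [Real.sin_neg, neg_neg] at h
  exact h

lemma cal_half : (897 / 1000 : ℝ) ≤ cal (1 / 2) := by
  rw [cal_eq (by norm_num)]
  apply Real.le_sqrt_of_sq_le
  norm_num

lemma cal_neg_half : (6456 / 10000 : ℝ) ≤ cal (-(1 / 2)) := by
  rw [cal_eq (by norm_num)]
  apply Real.le_sqrt_of_sq_le
  norm_num

lemma sqrt_two_le : √2 ≤ 1.414214 := by
  rw [Real.sqrt_le_left (by norm_num)]; norm_num

lemma sqrt_three_bounds : 1.73205 ≤ √3 ∧ √3 ≤ 1.732051 := by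
  constructor
  · apply Real.le_sqrt_of_sq_le; norm_num
  · rw [Real.sqrt_le_left (by norm_num)]; norm_num

/-- The numerical form of the calibration inequality for the trapezoidal profile. -/
lemma cross_numeric : 1 + 1 / 4000 ≤ (27 / 50) / √2 + (((781 / 1000 : ℝ) / 2 - 1 / 6) *
    (cal (1 / 2) + cal (-(1 / 2))) + 1 / π * ∫ x in (-(π / 6))..(π / 6), cal (sin x)) := by
  have hπ := Real.pi_pos
  have hπ1 := Real.pi_gt_d6
  have hπ2 := Real.pi_lt_d6
  obtain ⟨h3a, h3b⟩ := sqrt_three_bounds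
  have h1 : (27 / 50 : ℝ) / 1.414214 ≤ (27 / 50) / √2 := by
    apply div_le_div_of_nonneg_left (by norm_num) (by positivity) sqrt_two_le
  have h2 : 1 / π * (8409 / 10000 * (π / 3) - 18 / 100 * (π / 6 - √3 / 4) -
      416 / 1000 * (π / 8 - 7 * √3 / 32)) ≤
      1 / π * ∫ x in (-(π / 6))..(π / 6), cal (sin x) := by
    rw [← integral_Rp]
    exact mul_le_mul_of_nonneg_left integral_cal (by positivity)
  have h3 : 1 / π * (8409 / 10000 * (π / 3) - 18 / 100 * (π / 6 - √3 / 4) -
      416 / 1000 * (π / 8 - 7 * √3 / 32)) =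
      8409 / 30000 - 18 / 600 - 416 / 8000 + (18 / 400 + 416 * 7 / 32000) * (√3 / π) := by
    field_simp
    ring
  have h4 : (0.551326 : ℝ) ≤ √3 / π := by
    rw [le_div_iff₀ hπ]
    nlinarith
  have h5 := cal_half
  have h6 := cal_neg_half
  rw [h3] at h2
  norm_num at h1 h2 ⊢
  nlinarith

/-- The numerical form of the volume estimate for the trapezoidal profile. -/
lemma vol_numeric : ((781 / 1000 : ℝ) / 2 - 1 / 6) * (cos (π / 6) + cos (-(π / 6))) +
    1 / π * ∫ x in (-(π / 6))..(π / 6), cos x ≤ 7061 / 10000 := by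
  have hπ := Real.pi_pos
  have hπ1 := Real.pi_gt_d6
  obtain ⟨h3a, h3b⟩ := sqrt_three_bounds
  rw [integral_cos, Real.sin_neg, Real.cos_neg, Real.sin_pi_div_six, Real.cos_pi_div_six]
  have h1 : 1 / π ≤ 1 / 3.141592 := by
    apply one_div_le_one_div_of_le (by norm_num) hπ1.le
  norm_num at h1 ⊢
  nlinarith

/-- There is a smooth profile satisfying all the estimates. -/
theorem exists_profile : ∃ Θ : ℝ → ℝ, ∃ _ : IsProfile (781 / 1000) Θ,
    1 ≤ (27 / 50) / √2 + (781 / 1000) * ∫ s in (0 : ℝ)..1, √(1 - (27 / 50) ^ 2 / (1 + sin (Θ s))) ∧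
    1 ≤ (27 / 50) / √2 + (781 / 1000) * ∫ s in (0 : ℝ)..1, √(1 - (27 / 50) ^ 2 / (1 + -sin (Θ s))) ∧
    (781 / 1000) * ∫ s in (0 : ℝ)..1, cos (Θ s) ≤ 7063 / 10000 := by
  have hπ := Real.pi_pos
  set W : ℝ := 781 / 1000 with hW
  have hW0 : 0 ≤ W := by norm_num [hW]
  set T := trap W with hT
  have hTc : Continuous T := trap_continuous W hW0
  -- uniform continuity
  have uc : ∀ F : ℝ → ℝ, Continuous F → ∀ δ > 0, ∃ ε > 0, ∀ x y : ℝ, |x| ≤ π / 6 → |y| ≤ π / 6 →
      |x - y| ≤ ε → |F x - F y| ≤ δ := by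
    intro F hF δ hδ
    have h1 : UniformContinuousOn F (Icc (-(π / 6)) (π / 6)) :=
      isCompact_Icc.uniformContinuousOn_of_continuous hF.continuousOn
    obtain ⟨ε, hε, h2⟩ := Metric.uniformContinuousOn_iff.1 h1 δ hδ
    refine ⟨ε / 2, by positivity, fun x y hx hy hxy => ?_⟩
    have := h2 x (abs_le.1 hx) y (abs_le.1 hy) (by rw [Real.dist_eq]; linarith)
    rw [Real.dist_eq] at this
    exact this.le
  have cF1 : Continuous fun x => cal (sin x) := cal_continuous.comp Real.continuous_sin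
  have cF2 : Continuous fun x => cal (-sin x) := cal_continuous.comp Real.continuous_sin.neg
  obtain ⟨ε1, hε1, u1⟩ := uc _ cF1 (1 / 4000) (by norm_num)
  obtain ⟨ε2, hε2, u2⟩ := uc _ cF2 (1 / 4000) (by norm_num)
  obtain ⟨ε3, hε3, u3⟩ := uc _ Real.continuous_cos (1 / 5000) (by norm_num)
  set ε := min ε1 (min ε2 ε3) with hε
  have hε0 : 0 < ε := lt_min hε1 (lt_min hε2 hε3)
  obtain ⟨Θ, hsm, hper, hbd, hsl, happ⟩ := exists_smooth_approx T (Real.toNNReal (2 * π * W))
    (trap_lipschitz W hW0) (trap_periodic W) (π / 6) (trap_abs_le W) ε hε0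
  have hprof : IsProfile W Θ := by
    refine ⟨hsm, hper, hbd, fun s => ?_, by norm_num [hW]⟩
    have := hsl s
    rwa [Real.coe_toNNReal _ (by positivity)] at this
  have hΘc : Continuous Θ := hsm.continuous
  have hTb : ∀ s, |T s| ≤ π / 6 := trap_abs_le W
  -- comparison of integrals
  have cmp : ∀ (F : ℝ → ℝ), Continuous F → ∀ δ : ℝ, (∀ s, |F (Θ s) - F (T s)| ≤ δ) →
      |(∫ s in (0 : ℝ)..1, F (Θ s)) - ∫ s in (0 : ℝ)..1, F (T s)| ≤ δ := by
    intro F hF δ hδ
    have c1 : Continuous fun s => F (Θ s) := hF.comp hΘc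
    have c2 : Continuous fun s => F (T s) := hF.comp hTc
    rw [← intervalIntegral.integral_sub (c1.intervalIntegrable _ _) (c2.intervalIntegrable _ _)]
    have := intervalIntegral.norm_integral_le_of_norm_le_const (a := (0 : ℝ)) (b := 1) (C := δ)
      (f := fun s => F (Θ s) - F (T s)) (fun s _ => by rw [Real.norm_eq_abs]; exact hδ s)
    rw [Real.norm_eq_abs] at this
    simpa using this
  have hsinT : ∀ s, -(1 / 2) ≤ sin (Θ s) ∧ sin (Θ s) ≤ 1 / 2 := fun s =>
    abs_le.1 (hprof.sin_le s)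
  have hWle : (1 : ℝ) / 3 ≤ W := by norm_num [hW]
  have d1 := abs_le.1 (cmp _ cF1 (1 / 4000) fun s => u1 _ _ (hbd s) (hTb s)
    ((happ s).trans (min_le_left _ _)))
  have d2 := abs_le.1 (cmp _ cF2 (1 / 4000) fun s => u2 _ _ (hbd s) (hTb s)
    ((happ s).trans ((min_le_right _ _).trans (min_le_left _ _))))
  have d3 := abs_le.1 (cmp _ Real.continuous_cos (1 / 5000) fun s => u3 _ _ (hbd s) (hTb s)
    ((happ s).trans ((min_le_right _ _).trans (min_le_right _ _))))
  have t1 := integral_trap hWle cF1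
  have t2 := integral_trap hWle cF2
  have t3 := integral_trap hWle Real.continuous_cos
  simp only [Real.sin_neg, Real.sin_pi_div_six, neg_neg] at t1 t2
  rw [integral_cal_neg] at t2
  have c0 := cross_numeric
  have v0 := vol_numeric
  refine ⟨Θ, hprof, ?_, ?_, ?_⟩
  · have e : ∫ s in (0 : ℝ)..1, √(1 - (27 / 50) ^ 2 / (1 + sin (Θ s))) =
        ∫ s in (0 : ℝ)..1, cal (sin (Θ s)) := by
      congr 1; funext s; rw [cal_eq (hsinT s).1]
    rw [e]
    rw [← hW] at c0
    have : W * ∫ s in (0 : ℝ)..1, cal (sin (Θ s)) ≥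
        W * (∫ s in (0 : ℝ)..1, cal (sin (T s))) - 1 / 4000 := by
      have : W ≤ 1 := by norm_num [hW]
      nlinarith [d1.1]
    rw [← t1] at c0
    linarith
  · have e : ∫ s in (0 : ℝ)..1, √(1 - (27 / 50) ^ 2 / (1 + -sin (Θ s))) =
        ∫ s in (0 : ℝ)..1, cal (-sin (Θ s)) := by
      congr 1; funext s; rw [cal_eq (by linarith [(hsinT s).2])]
    rw [e]
    rw [← hW, add_comm (cal (1 / 2)) (cal (-(1 / 2)))] at c0
    have : W * ∫ s in (0 : ℝ)..1, cal (-sin (Θ s)) ≥
        W * (∫ s in (0 : ℝ)..1, cal (-sin (T s))) - 1 / 4000 := by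
      have : W ≤ 1 := by norm_num [hW]
      nlinarith [d2.1]
    rw [← t2] at c0
    linarith
  · rw [← hW] at v0
    rw [← t3] at v0
    have : W ≤ 1 := by norm_num [hW]
    nlinarith [d3.2]

end Pool.Agent.SystolicTorus
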